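import Pool.Agent.J4H65.UP.Crit

/-!
# The characteristic roots of critical recurrences
-/

set_option autoImplicit false

namespace Pool.Agent.J4H65.UP

open Polynomial Filter Topology Pool.Agent.H612.LR
open scoped Classical

theorem phi_lt (θ : ℝ) (h0 : 0 < θ) (h1 : θ < 1) (J m : ℕ) :
    Tendsto (fun n : ℕ => θ ^ n * ((n : ℝ) + 1) ^ J / ((n : ℝ) + 1) ^ m) atTop (𝓝 0) := by
  have h2 := (tendsto_pow_const_mul_const_pow_of_abs_lt_one J (r := θ)
    (by rw [abs_of_pos h0]; exact h1)).comp (tendsto_add_atTop_nat 1)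
  have h3 := h2.const_mul θ⁻¹
  rw [mul_zero] at h3
  refine squeeze_zero (fun n => by positivity) (fun n => ?_) h3
  simp only [Function.comp]
  push_cast
  rw [div_le_iff₀ (by positivity)]
  have h4 : (1 : ℝ) ≤ ((n : ℝ) + 1) ^ m := one_le_pow₀ (by
    have : (0 : ℝ) ≤ n := Nat.cast_nonneg n
    linarith)
  have e : θ⁻¹ * (((n : ℝ) + 1) ^ J * θ ^ (n + 1)) = θ ^ n * ((n : ℝ) + 1) ^ J := by
    rw [pow_succ]
    field_simp
  rw [e]
  exact le_mul_of_one_le_right (by positivity) h4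

theorem phi_poly (J m : ℕ) (h : J < m) :
    Tendsto (fun n : ℕ => ((n : ℝ) + 1) ^ J / ((n : ℝ) + 1) ^ m) atTop (𝓝 0) := by
  refine squeeze_zero (fun n => by positivity) (fun n => ?_)
    (tendsto_one_div_add_atTop_nhds_zero_nat (𝕜 := ℝ))
  have h0 : (0 : ℝ) < (n : ℝ) + 1 := by positivity
  have h1 : (1 : ℝ) ≤ (n : ℝ) + 1 := by
    have : (0 : ℝ) ≤ n := Nat.cast_nonneg n
    linarith
  rw [div_le_div_iff₀ (by positivity) h0, one_mul, ← pow_succ]
  exact pow_le_pow_right₀ h1 h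

/-- comparison of orders of growth -/
theorem phi_lim (θ : ℝ) (hθ : 0 < θ) (J m : ℕ) (hne : ¬ (θ = 1 ∧ J = m)) :
    Tendsto (fun n : ℕ => θ ^ n * ((n : ℝ) + 1) ^ J / ((n : ℝ) + 1) ^ m) atTop (𝓝 0) ∨
    Tendsto (fun n : ℕ => ((n : ℝ) + 1) ^ m / (θ ^ n * ((n : ℝ) + 1) ^ J)) atTop (𝓝 0) := by
  rcases lt_trichotomy θ 1 with h | h | h
  · exact Or.inl (phi_lt θ hθ h J m)
  · subst h
    rcases lt_trichotomy J m with h | h | h
    · left
      simpa using phi_poly J m h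
    · exact absurd ⟨rfl, h⟩ hne
    · right
      simpa using phi_poly m J h
  · right
    have h1 := phi_lt θ⁻¹ (inv_pos.2 hθ) (inv_lt_one_of_one_lt₀ h) m J
    refine h1.congr fun n => ?_
    rw [inv_pow]
    field_simp

theorem quo_gen (l : Rec) (d : CD) (hρ : 0 < d.ρ) (ρ : ℝ) (hρ' : 0 < ρ) (m : ℕ) (t : ℕ)
    (ht : d.J ≤ d.m + d.q * t) :
    quo l d.m d.q m ρ t = wn l d t *
      (((d.m + d.q * t).choose d.J : ℝ) / (((d.m + d.q * t : ℕ) : ℝ) + 1) ^ d.J) *
      ((d.ρ / ρ) ^ (d.m + d.q * t) * (((d.m + d.q * t : ℕ) : ℝ) + 1) ^ d.J /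
        (((d.m + d.q * t : ℕ) : ℝ) + 1) ^ m) := by
  unfold quo wn
  have h1 : ((d.m + d.q * t).choose d.J : ℝ) ≠ 0 := by
    have : 0 < (d.m + d.q * t).choose d.J := Nat.choose_pos ht
    exact_mod_cast this.ne'
  rw [div_pow]
  field_simp

/-- The order of growth along a residue class is determined. -/
theorem growth_unique (l : Rec) (d : CD) (hrep : Rep l d.lam d.c) (h : Cls l d) (ρ : ℝ) (m : ℕ)
    (hρ : 0 < ρ) (C : ℝ) (hC : ∀ t, |quo l d.m d.q m ρ t| ≤ C)
    (hnt : ¬ Tendsto (quo l d.m d.q m ρ) atTop (𝓝 0)) : d.ρ = ρ ∧ d.J = m := by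
  by_contra hcon
  have hq := h.lev.q1
  have hidx := tendsto_index d.m d.q hq
  obtain ⟨c0, hc0, hkap⟩ := kap_bounds d.J
  have hle : ∀ t, t ≤ d.m + d.q * t := by
    intro t
    have : t ≤ d.q * t := Nat.le_mul_of_pos_left _ hq
    omega
  have hθ : 0 < d.ρ / ρ := div_pos h.rpos hρ
  rcases phi_lim (d.ρ / ρ) hθ d.J m (fun h1 => hcon ⟨(div_eq_one_iff_eq hρ.ne').1 h1.1, h1.2⟩)
    with hl | hl
  · apply hnt
    obtain ⟨B, N, hB, hbd⟩ := wn_bdd l d hrep h
    have h1 := (hl.comp hidx).const_mul B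
    rw [mul_zero] at h1
    refine squeeze_zero_norm' ?_ h1
    filter_upwards [eventually_ge_atTop (N + 2 * d.J + 1)] with t ht
    have h2 := hle t
    obtain ⟨h3, h4⟩ := hkap (d.m + d.q * t) (by omega)
    rw [Real.norm_eq_abs, quo_gen l d h.rpos ρ hρ m t (by omega)]
    simp only [Function.comp]
    set φ := (d.ρ / ρ) ^ (d.m + d.q * t) * (((d.m + d.q * t : ℕ) : ℝ) + 1) ^ d.J /
        (((d.m + d.q * t : ℕ) : ℝ) + 1) ^ m with hφ
    have hφ0 : 0 ≤ φ := by positivity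
    rw [abs_mul, abs_mul, abs_of_nonneg hφ0, abs_of_nonneg (hc0.le.trans h3)]
    have h5 := hbd t (by omega)
    have h6 := abs_nonneg (wn l d t)
    have h7 : |wn l d t| * (((d.m + d.q * t).choose d.J : ℝ) /
        (((d.m + d.q * t : ℕ) : ℝ) + 1) ^ d.J) ≤ B * 1 :=
      mul_le_mul h5 h4 (hc0.le.trans h3) hB
    rw [mul_one] at h7
    exact mul_le_mul_of_nonneg_right h7 hφ0
  · apply wn_not_tendsto l d hrep h
    have h1 := (hl.comp hidx).const_mul (C / c0)
    rw [mul_zero] at h1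
    refine squeeze_zero_norm' ?_ h1
    filter_upwards [eventually_ge_atTop (2 * d.J + 1)] with t ht
    have h2 := hle t
    obtain ⟨h3, h4⟩ := hkap (d.m + d.q * t) (by omega)
    have h5 := hC t
    rw [quo_gen l d h.rpos ρ hρ m t (by omega)] at h5
    simp only [Function.comp]
    have hn0 : (0 : ℝ) < ((d.m + d.q * t : ℕ) : ℝ) + 1 := by positivity
    have hθn : (0 : ℝ) < (d.ρ / ρ) ^ (d.m + d.q * t) := by positivity
    set n1 : ℝ := ((d.m + d.q * t : ℕ) : ℝ) + 1 with hn1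
    set θn : ℝ := (d.ρ / ρ) ^ (d.m + d.q * t) with hθn'
    set κ : ℝ := ((d.m + d.q * t).choose d.J : ℝ) / n1 ^ d.J with hκ
    have hκ0 : 0 < κ := lt_of_lt_of_le hc0 h3
    have hφ0 : 0 < θn * n1 ^ d.J / n1 ^ m := by positivity
    have e5 : |wn l d t * κ * (θn * n1 ^ d.J / n1 ^ m)| =
        |wn l d t| * κ * (θn * n1 ^ d.J / n1 ^ m) := by
      rw [abs_mul, abs_mul, abs_of_pos hκ0, abs_of_pos hφ0]
    have h5' : |wn l d t| * κ * (θn * n1 ^ d.J / n1 ^ m) ≤ C := e5 ▸ h5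
    rw [Real.norm_eq_abs, div_mul_div_comm, le_div_iff₀ (by positivity)]
    have h6 : |wn l d t| * κ * (θn * n1 ^ d.J) ≤ C * n1 ^ m := by
      rw [mul_div_assoc', div_le_iff₀ (by positivity)] at h5'
      exact h5'
    calc |wn l d t| * (c0 * (θn * n1 ^ d.J)) ≤ |wn l d t| * (κ * (θn * n1 ^ d.J)) := by gcongr
      _ = |wn l d t| * κ * (θn * n1 ^ d.J) := by ring
      _ ≤ _ := h6

/-- An exponential sum with nonnegative real values which does not tend to zero has a constant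
term. -/
theorem const_term (I : Finset ℕ) (g x : ℕ → ℂ) (hx : ∀ s ∈ I, ‖x s‖ = 1) (D : ℕ → ℂ)
    (hD : ∀ t, D t = ∑ s ∈ I, g s * x s ^ t) (him : ∀ t, (D t).im = 0) (hnn : ∀ t, 0 ≤ (D t).re)
    (hnt : ¬ Tendsto D atTop (𝓝 0)) : ∃ s ∈ I, x s = 1 ∧ g s ≠ 0 := by
  by_contra hcon
  push Not at hcon
  apply hnt
  set B : ℝ := ∑ s ∈ I, ‖g s‖ * (2 / ‖x s - 1‖) with hB
  have hsum : ∀ N, ‖∑ t ∈ Finset.range N, D t‖ ≤ B := by
    intro N
    have e : ∑ t ∈ Finset.range N, D t = ∑ s ∈ I, g s * ∑ t ∈ Finset.range N, x s ^ t := by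
      simp only [hD]
      rw [Finset.sum_comm]
      exact Finset.sum_congr rfl fun s _ => by rw [Finset.mul_sum]
    rw [e]
    refine (norm_sum_le _ _).trans (Finset.sum_le_sum fun s hs => ?_)
    rw [norm_mul]
    by_cases h1 : x s = 1
    · rw [hcon s hs h1, norm_zero, zero_mul, zero_mul]
    · refine mul_le_mul_of_nonneg_left ?_ (norm_nonneg _)
      rw [geom_sum_eq h1, norm_div]
      have h2 : 0 < ‖x s - 1‖ := norm_pos_iff.2 (sub_ne_zero.2 h1)
      refine div_le_div_of_nonneg_right ?_ h2.le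
      calc ‖x s ^ N - 1‖ ≤ ‖x s ^ N‖ + ‖(1 : ℂ)‖ := norm_sub_le _ _
        _ = 2 := by rw [norm_pow, hx s hs, one_pow, norm_one]; norm_num
  have hs : Summable fun t => (D t).re := by
    refine summable_of_sum_range_le hnn (c := B) fun N => ?_
    have h1 := hsum N
    have h2 := Complex.re_le_norm (∑ t ∈ Finset.range N, D t)
    rw [Complex.re_sum] at h2
    exact h2.trans h1
  have h0 := hs.tendsto_atTop_zero
  have h1 : Tendsto (fun t => (((D t).re : ℝ) : ℂ)) atTop (𝓝 0) := by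
    have := (Complex.continuous_ofReal.tendsto 0).comp h0
    simpa [Function.comp_def] using this
  refine h1.congr fun t => ?_
  apply Complex.ext
  · rw [Complex.ofReal_re]
  · rw [Complex.ofReal_im, him t]

/-- The dominant part along a class with lower limit zero. -/
theorem dpart_of_liminf (l : Rec) (d : CD) (hrep : Rep l d.lam d.c) (h : Cls l d)
    (C : ℝ) (hC : ∀ t, |quo l d.m d.q d.J d.ρ t| ≤ C)
    (hlim : liminf (quo l d.m d.q d.J d.ρ) atTop = 0) :
    (∀ t, 0 ≤ (dpart l.length d t).re) ∧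
      ∀ ε : ℝ, 0 < ε → ∀ N : ℕ, ∃ t, N ≤ t ∧ (dpart l.length d t).re < ε := by
  obtain ⟨c0, hc0, hkap⟩ := kap_bounds d.J
  have hq := h.lev.q1
  have hidx : ∀ t, 2 * d.J + 1 ≤ t → 2 * d.J + 1 ≤ d.m + d.q * t := by
    intro t ht
    have : t ≤ d.q * t := Nat.le_mul_of_pos_left _ hq
    omega
  have hquo : ∀ t, 2 * d.J + 1 ≤ t → ∃ κ : ℝ, c0 ≤ κ ∧ κ ≤ 1 ∧
      quo l d.m d.q d.J d.ρ t = wn l d t * κ := by
    intro t ht
    have h1 := hidx t ht
    obtain ⟨h2, h3⟩ := hkap _ h1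
    exact ⟨_, h2, h3, quo_eq l d h.rpos t (by omega)⟩
  have hc := close l d hrep h.lev h.jlt h.rpos
  have hre : ∀ ε : ℝ, 0 < ε → ∃ N, ∀ t, N ≤ t → |wn l d t - (dpart l.length d t).re| < ε := by
    intro ε hε
    obtain ⟨N, hN⟩ := (Metric.tendsto_atTop.1 hc) ε hε
    refine ⟨N, fun t ht => ?_⟩
    have h1 := hN t ht
    rw [dist_zero_right] at h1
    have h2 := (Complex.abs_re_le_norm (((wn l d t : ℝ) : ℂ) - dpart l.length d t)).trans_lt h1
    rwa [Complex.sub_re, Complex.ofReal_re] at h2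
  constructor
  · intro t0
    by_contra hcon
    rw [not_le] at hcon
    set δ : ℝ := -(dpart l.length d t0).re with hδ
    have hδ0 : 0 < δ := by linarith
    obtain ⟨N1, hN1⟩ := hre (δ / 3) (by positivity)
    obtain ⟨L, hL⟩ := dpart_return l d h.lev h.rpos (δ / 3) (by positivity) t0
    have hfr : ∃ᶠ t in atTop, quo l d.m d.q d.J d.ρ t ≤ -(δ / 3 * c0) := by
      rw [frequently_atTop]
      intro N
      obtain ⟨t, ht, -, hts⟩ := hL (N + N1 + 2 * d.J + 1)
      refine ⟨t, by omega, ?_⟩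
      obtain ⟨κ, hκ1, hκ2, he⟩ := hquo t (by omega)
      have h1 := (abs_lt.1 (hN1 t (by omega))).2
      have h2 := (Complex.abs_re_le_norm (dpart l.length d t - dpart l.length d t0)).trans_lt hts
      rw [Complex.sub_re] at h2
      have h3 := (abs_lt.1 h2).2
      have h4 : wn l d t ≤ -(δ / 3) := by linarith
      rw [he]
      have h5 : δ / 3 * c0 ≤ (-wn l d t) * κ :=
        mul_le_mul (by linarith) hκ1 hc0.le (by linarith)
      linarith
    have := liminf_le_of_frequently_le hfr (isBoundedUnder_of ⟨-C, fun t => (abs_le.1 (hC t)).1⟩)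
    rw [hlim] at this
    have : 0 < δ / 3 * c0 := by positivity
    linarith
  · by_contra hcon
    push Not at hcon
    obtain ⟨ε, hε, N, hN⟩ := hcon
    obtain ⟨N1, hN1⟩ := hre (ε / 2) (by positivity)
    have h1 : ε / 2 * c0 ≤ liminf (quo l d.m d.q d.J d.ρ) atTop := by
      refine le_liminf_of_le ?_ ?_
      · exact (isBoundedUnder_of ⟨C, fun t => (abs_le.1 (hC t)).2⟩ :
          IsBoundedUnder (· ≤ ·) atTop (quo l d.m d.q d.J d.ρ)).isCoboundedUnder_ge
      · filter_upwards [eventually_ge_atTop (N + N1 + 2 * d.J + 1)] with t ht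
        obtain ⟨κ, hκ1, hκ2, he⟩ := hquo t (by omega)
        have h1 := (abs_lt.1 (hN1 t (by omega))).1
        have h2 := hN t (by omega)
        rw [he]
        exact mul_le_mul (by linarith) hκ1 hc0.le (by linarith)
    rw [hlim] at h1
    have : 0 < ε / 2 * c0 := by positivity
    linarith

/-- all terms vanish along a class without a top level -/
theorem vanish_of_zero (l : Rec) (d : CD) (hrep : Rep l d.lam d.c) (hρ0 : d.ρ = 0)
    (hlev : d.Lev l) (hJ : d.J < l.length) : ∀ t, l.length ≤ t → seq l (d.m + d.q * t) = 0 := by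
  intro t ht
  obtain ⟨hl0, -, -⟩ := hrep 0
  have e1 : d.S l.length 1 = ∅ := by
    rw [Finset.eq_empty_iff_forall_notMem]
    intro i hi
    unfold CD.S at hi
    rw [Finset.mem_filter, Finset.mem_range] at hi
    rcases hlev.flag i hi.1 with h | ⟨-, h, -⟩ | ⟨h, -⟩
    · omega
    · rw [hρ0, norm_eq_zero] at h
      exact hl0 i hi.1 h
    · omega
  have e2 : d.S l.length 2 = ∅ := by
    rw [Finset.eq_empty_iff_forall_notMem]
    intro i hi
    unfold CD.S at hi
    rw [Finset.mem_filter, Finset.mem_range] at hi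
    rcases hlev.flag i hi.1 with h | ⟨h, -⟩ | ⟨-, h⟩
    · omega
    · omega
    · rw [hρ0] at h
      exact absurd h (not_lt.mpr (norm_nonneg _))
  have : t ≤ d.q * t := Nat.le_mul_of_pos_left _ hlev.q1
  have h := (hrep (d.m + d.q * t + 1)).2.2 (d.m + d.q * t) (by omega) (Nat.lt_succ_self _)
  rw [snd_split t_VAN l d hlev hJ, e1, e2, Finset.sum_empty, Finset.sum_empty, add_zero] at h
  exact_mod_cast h

/-- A critical recurrence has two multiple characteristic roots of the same modulus, one of them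
the modulus times a root of unity and the other one not. -/
theorem critical_roots (l : Rec) (hl : 1 ≤ l.length) (hcr : Critical l) : ∃ z w : ℂ,
    2 ≤ (croots l).count z ∧ 2 ≤ (croots l).count w ∧ ‖z‖ = ‖w‖ ∧
    (∃ k : ℕ, 1 ≤ k ∧ z ^ k = (‖z‖ : ℂ) ^ k) ∧
    ∀ k : ℕ, 1 ≤ k → w ^ k ≠ (starRingEnd ℂ w) ^ k := by
  obtain ⟨ρ', m, hρ', hm, hq⟩ := hcr
  obtain ⟨Ct, hCt⟩ := t_TOR t_TORK
  obtain ⟨q0, hq1, -, hq3⟩ := hCt l hl
  obtain ⟨a, b, hb, ⟨e, he⟩, ⟨C, hC⟩, hnt, hlim⟩ := hq q0 hq1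
  obtain ⟨lam, c, hrep, hmul, halg⟩ := t_RPE l hl
  have hroot : ∀ i < l.length, (∃ j < l.length, c i j ≠ 0) → IsRoot l (lam i) := by
    rintro i hi ⟨j, hj, hne⟩
    rw [t_ROOT l _ hl]
    by_contra hcon
    exact hne (hmul i hi j hj (by rw [Multiset.count_eq_zero.2 hcon]; exact Nat.zero_le _))
  obtain ⟨d, hd1, hd2, hd3, hd4, hd⟩ := class_data l lam c b hl hrep hroot hb a
  have hrep' : Rep l d.lam d.c := by rw [hd1, hd2]; exact hrep
  rw [← hd3, ← hd4] at hnt hlim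
  rw [← hd3, ← hd4] at hC
  rcases hd with ⟨hρ0, hlev, hJ⟩ | h
  · exfalso
    apply hnt
    have hz := vanish_of_zero l d hrep' hρ0 hlev hJ
    refine (tendsto_const_nhds (x := (0 : ℝ))).congr' ?_
    filter_upwards [eventually_ge_atTop l.length] with t ht
    unfold quo
    rw [hz t ht]
    simp
  obtain ⟨g1, g2⟩ := growth_unique l d hrep' h ρ' m hρ' C hC hnt
  rw [← g1, ← g2] at hnt hlim
  rw [← g1, ← g2] at hC
  rw [← g2] at hm
  obtain ⟨hnn, hsm⟩ := dpart_of_liminf l d hrep' h C hC hlim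
  have hSr : ∀ i ∈ d.S l.length 1, i < l.length ∧ ‖d.lam i‖ = d.ρ ∧ IsRoot l (d.lam i) ∧
      d.lam i ≠ 0 := by
    intro i hi
    unfold CD.S at hi
    rw [Finset.mem_filter, Finset.mem_range] at hi
    rcases h.lev.flag i hi.1 with h1 | ⟨-, h0, h1⟩ | ⟨h1, -⟩
    · omega
    · exact ⟨hi.1, h0, h1, (hrep' 0).1 i hi.1⟩
    · omega
  have htor : ∀ i ∈ d.S l.length 1, ∀ i' ∈ d.S l.length 1, ∀ t : ℕ, 1 ≤ t →
      d.lam i ^ (d.q * t) = d.lam i' ^ (d.q * t) → d.lam i ^ d.q = d.lam i' ^ d.q := by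
    intro i hi i' hi' t ht heq
    obtain ⟨-, -, r1, r2⟩ := hSr i hi
    obtain ⟨-, -, r3, r4⟩ := hSr i' hi'
    have h1 := hq3 _ _ r1 r3 r2 r4 (d.q * t) (Nat.mul_pos (hd3 ▸ hb) ht) heq
    rw [hd3, he, pow_mul, pow_mul, h1]
  obtain ⟨I, g, x, hx, hg, hnd, hform, hback⟩ := dpart_form l d h htor
  obtain ⟨s0, hs0, hxs0, hgs0⟩ := const_term I g x hx _ hform
    (dpart_im l d hrep' h.lev h.jlt h.rpos) hnn (dpart_not_tendsto l d h)
  -- a second term
  obtain ⟨s1, hs1, hne, hgs1⟩ : ∃ s ∈ I, s ≠ s0 ∧ g s ≠ 0 := by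
    by_contra hcon
    push Not at hcon
    have hconst : ∀ t, dpart l.length d t = g s0 := by
      intro t
      rw [hform, Finset.sum_eq_single s0 (fun s hs hs' => by rw [hcon s hs hs', zero_mul])
        (fun h => absurd hs0 h), hxs0, one_pow, mul_one]
    have h1 := hnn 0
    rw [hconst] at h1
    have h2 := dpart_im l d hrep' h.lev h.jlt h.rpos 0
    rw [hconst] at h2
    have h3 : (g s0).re ≠ 0 := fun h3 => hgs0 (Complex.ext h3 h2)
    obtain ⟨t, -, ht⟩ := hsm (g s0).re (lt_of_le_of_ne h1 (Ne.symm h3)) 0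
    rw [hconst] at ht
    exact lt_irrefl _ ht
  have hx1 : ∀ t : ℕ, 1 ≤ t → x s1 ^ t ≠ 1 := by
    intro t ht heq
    refine hnd s1 hs1 s0 hs0 hne t ht ?_
    rw [heq, hxs0, one_pow]
  obtain ⟨i0, hi0, hc0, he0⟩ := hback s0 hs0 hgs0
  obtain ⟨i1, hi1, hc1, he1⟩ := hback s1 hs1 hgs1
  obtain ⟨k0, n0, r0, -⟩ := hSr i0 hi0
  obtain ⟨k1, n1, r1, -⟩ := hSr i1 hi1
  have hcount : ∀ i < l.length, d.c i d.J ≠ 0 → 2 ≤ (croots l).count (d.lam i) := by
    intro i hi hne'
    by_contra hcon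
    apply hne'
    rw [hd2]
    refine hmul i hi d.J h.jlt ?_
    rw [← hd1]
    omega
  have hρc : (d.ρ : ℂ) ≠ 0 := by exact_mod_cast h.rpos.ne'
  refine ⟨d.lam i0, d.lam i1, hcount i0 k0 hc0, hcount i1 k1 hc1, by rw [n0, n1],
    ⟨d.q, h.lev.q1, ?_⟩, fun k hk heq => ?_⟩
  · rw [n0]
    rw [hxs0, div_pow, div_eq_one_iff_eq (pow_ne_zero _ hρc)] at he0
    exact he0
  · have h1 : d.lam i1 ^ (2 * k) = (d.ρ : ℂ) ^ (2 * k) := by
      have h2 : d.lam i1 * (starRingEnd ℂ) (d.lam i1) = (d.ρ : ℂ) ^ 2 := by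
        rw [Complex.mul_conj, Complex.normSq_eq_norm_sq, n1]
        push_cast
        rfl
      calc d.lam i1 ^ (2 * k) = d.lam i1 ^ k * d.lam i1 ^ k := by rw [two_mul, pow_add]
        _ = d.lam i1 ^ k * (starRingEnd ℂ) (d.lam i1) ^ k := by rw [← heq]
        _ = (d.ρ : ℂ) ^ (2 * k) := by rw [← mul_pow, h2, ← pow_mul]
    refine hx1 (2 * k) (by omega) ?_
    rw [← he1, ← pow_mul, mul_comm d.q, pow_mul, div_pow, h1, div_self (pow_ne_zero _ hρc),
      one_pow]

theorem count_conj (l : Rec) (z : ℂ) : (croots l).count ((starRingEnd ℂ) z) =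
    (croots l).count z := by
  unfold croots
  rw [Polynomial.count_roots, Polynomial.count_roots]
  have hmap : ((chi l).map (algebraMap ℚ ℂ)).map (starRingEnd ℂ) =
      (chi l).map (algebraMap ℚ ℂ) := by
    rw [Polynomial.map_map]
    congr 1
    exact Subsingleton.elim _ _
  have := Polynomial.eq_rootMultiplicity_map (p := (chi l).map (algebraMap ℚ ℂ))
    (f := starRingEnd ℂ) (starRingEnd ℂ).injective z
  rw [hmap] at this
  exact this.symm

theorem card_croots (l : Rec) (hl : 1 ≤ l.length) : (croots l).card ≤ l.length := by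
  unfold croots
  refine (Polynomial.card_roots' _).trans ?_
  rw [Polynomial.natDegree_map]
  unfold chi
  refine (Polynomial.natDegree_sub_le _ _).trans ?_
  rw [Polynomial.natDegree_X_pow, max_le_iff]
  refine ⟨le_refl _, ?_⟩
  refine Polynomial.natDegree_sum_le_of_forall_le _ _ fun i hi => ?_
  refine (Polynomial.natDegree_C_mul_X_pow_le _ _).trans ?_
  omega

/-- A critical recurrence has order at least six. -/
theorem critical_order (l : Rec) (hl : 1 ≤ l.length) (hcr : Critical l) : 6 ≤ l.length := by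
  obtain ⟨z, w, hz, hw, -, ⟨k, hk, hzk⟩, hwk⟩ := critical_roots l hl hcr
  have hne1 : z ≠ w := by
    rintro rfl
    apply hwk k hk
    have := congrArg (starRingEnd ℂ) hzk
    rw [map_pow, map_pow, Complex.conj_ofReal] at this
    rw [hzk, this]
  have hne2 : z ≠ (starRingEnd ℂ) w := by
    intro heq
    have hw' : w = (starRingEnd ℂ) z := by rw [heq, Complex.conj_conj]
    apply hwk k hk
    have := congrArg (starRingEnd ℂ) hzk
    rw [map_pow, map_pow, Complex.conj_ofReal, ← hw'] at this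
    rw [← heq, hzk, this]
  have hne3 : w ≠ (starRingEnd ℂ) w := by
    intro heq
    have := hwk 1 le_rfl
    rw [pow_one, pow_one] at this
    exact this heq
  have hw2 : 2 ≤ (croots l).count ((starRingEnd ℂ) w) := by rw [count_conj]; exact hw
  have hle : ∑ u ∈ ({z, w, (starRingEnd ℂ) w} : Finset ℂ), (croots l).count u ≤
      (croots l).card := by
    rw [← Multiset.toFinset_sum_count_eq]
    refine Finset.sum_le_sum_of_ne_zero fun u _ hu => ?_
    rw [Multiset.mem_toFinset]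
    exact Multiset.count_ne_zero.1 hu
  rw [Finset.sum_insert (by simp [hne1, hne2]), Finset.sum_insert (by simpa using hne3),
    Finset.sum_singleton] at hle
  have := card_croots l hl
  omega

/-- Simple recurrences are not critical. -/
theorem critical_not_simple (l : Rec) (hl : 1 ≤ l.length) (hcr : Critical l) : ¬ Simple l := by
  intro hs
  obtain ⟨z, -, hz, -⟩ := critical_roots l hl hcr
  have := Multiset.nodup_iff_count_le_one.1 hs z
  omega

end Pool.Agent.J4H65.UP
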