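import Pool.Agent.J4H65.UP.Cls

/-!
# Asymptotics along a residue class
-/

set_option autoImplicit false

namespace Pool.Agent.J4H65.UP

open Polynomial Filter Topology Pool.Agent.H612.LR

/-- the normalised dominant part along the class -/
noncomputable def dpart (k : ℕ) (d : CD) (t : ℕ) : ℂ :=
  ∑ i ∈ d.S k 1, d.c i d.J * (d.lam i / (d.ρ : ℂ)) ^ (d.m + d.q * t)

theorem choose_le_pow' (n j : ℕ) : (n.choose j : ℝ) ≤ ((n : ℝ) + 1) ^ j := by
  have h : n.choose j ≤ (n + 1) ^ j :=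
    (Nat.choose_le_pow n j).trans (Nat.pow_le_pow_left (Nat.le_succ n) j)
  exact_mod_cast h

/-- the basic estimate -/
theorem est (l : Rec) (d : CD) (hrep : Rep l d.lam d.c) (hlev : d.Lev l)
    (hJ : d.J < l.length) (hρ : 0 < d.ρ) :
    ∃ A1 A2 μ : ℝ, 0 ≤ A1 ∧ 0 ≤ A2 ∧ 0 ≤ μ ∧ μ < d.ρ ∧ (d.J = 0 → A1 = 0) ∧
      ∀ t, l.length ≤ d.m + d.q * t →
      ‖((seq l (d.m + d.q * t) : ℚ) : ℂ) - ((d.m + d.q * t).choose d.J : ℂ) *
        ((d.ρ : ℂ) ^ (d.m + d.q * t)) * dpart l.length d t‖ ≤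
      A1 * (d.ρ ^ (d.m + d.q * t) * (((d.m + d.q * t : ℕ) : ℝ) + 1) ^ d.J /
        (((d.m + d.q * t : ℕ) : ℝ) + 1)) +
      A2 * ((((d.m + d.q * t : ℕ) : ℝ) + 1) ^ l.length * μ ^ (d.m + d.q * t)) := by
  classical
  have hseq : ∀ n, l.length ≤ n → ((seq l n : ℚ) : ℂ) = expo l.length d.lam d.c n :=
    fun n hn => (hrep (n + 1)).2.2 n hn (Nat.lt_succ_self n)
  have hS1 : ∀ i ∈ d.S l.length 1, ‖d.lam i‖ = d.ρ := by
    intro i hi
    unfold CD.S at hi
    rw [Finset.mem_filter, Finset.mem_range] at hi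
    rcases hlev.flag i hi.1 with h | ⟨-, h, -⟩ | ⟨h, -⟩
    · omega
    · exact h
    · omega
  have hS2 : ∀ i ∈ d.S l.length 2, ‖d.lam i‖ < d.ρ := by
    intro i hi
    unfold CD.S at hi
    rw [Finset.mem_filter, Finset.mem_range] at hi
    rcases hlev.flag i hi.1 with h | ⟨h, -⟩ | ⟨-, h⟩
    · omega
    · omega
    · exact h
  set M : Finset ℝ := insert 0 ((d.S l.length 2).image fun i => ‖d.lam i‖) with hM
  have hMne : M.Nonempty := ⟨0, Finset.mem_insert_self _ _⟩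
  set μ : ℝ := M.max' hMne with hμ
  have hμ0 : 0 ≤ μ := Finset.le_max' _ _ (Finset.mem_insert_self _ _)
  have hμρ : μ < d.ρ := by
    have h1 := Finset.max'_mem M hMne
    rw [← hμ] at h1
    rcases Finset.mem_insert.1 h1 with h | h
    · rw [h]; exact hρ
    · obtain ⟨i, hi, hie⟩ := Finset.mem_image.1 h
      rw [← hie]
      exact hS2 i hi
  have hle : ∀ i ∈ d.S l.length 2, ‖d.lam i‖ ≤ μ := fun i hi =>
    Finset.le_max' M _ (Finset.mem_insert_of_mem (Finset.mem_image_of_mem _ hi))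
  refine ⟨∑ i ∈ d.S l.length 1, ∑ j ∈ Finset.range d.J, ‖d.c i j‖,
    ∑ i ∈ d.S l.length 2, ∑ j ∈ Finset.range l.length, ‖d.c i j‖, μ,
    Finset.sum_nonneg fun _ _ => Finset.sum_nonneg fun _ _ => norm_nonneg _,
    Finset.sum_nonneg fun _ _ => Finset.sum_nonneg fun _ _ => norm_nonneg _, hμ0, hμρ, ?_, ?_⟩
  · intro h
    rw [h]
    simp
  intro t ht
  rw [hseq _ ht, snd_split t_VAN l d hlev hJ t]
  have hdp : dpart l.length d t =
      ∑ i ∈ d.S l.length 1, d.c i d.J * (d.lam i / (d.ρ : ℂ)) ^ (d.m + d.q * t) := rfl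
  rw [hdp]
  generalize d.m + d.q * t = n at *
  have hρc : (d.ρ : ℂ) ≠ 0 := by exact_mod_cast hρ.ne'
  have e1 : (n.choose d.J : ℂ) * ((d.ρ : ℂ) ^ n) *
      ∑ i ∈ d.S l.length 1, d.c i d.J * (d.lam i / (d.ρ : ℂ)) ^ n =
      ∑ i ∈ d.S l.length 1, d.c i d.J * (n.choose d.J : ℂ) * d.lam i ^ n := by
    rw [Finset.mul_sum]
    refine Finset.sum_congr rfl fun i _ => ?_
    rw [div_pow]
    field_simp
  have e2 : ∑ i ∈ d.S l.length 1, ∑ j ∈ Finset.range (d.J + 1),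
      d.c i j * (n.choose j : ℂ) * d.lam i ^ n =
      ∑ i ∈ d.S l.length 1, ∑ j ∈ Finset.range d.J, d.c i j * (n.choose j : ℂ) * d.lam i ^ n +
      ∑ i ∈ d.S l.length 1, d.c i d.J * (n.choose d.J : ℂ) * d.lam i ^ n := by
    rw [← Finset.sum_add_distrib]
    refine Finset.sum_congr rfl fun i _ => ?_
    rw [Finset.sum_range_succ]
  rw [e1, e2]
  have e3 : ∀ a b c : ℂ, a + b + c - b = a + c := fun a b c => by ring
  rw [e3]
  have hn1 : (1 : ℝ) ≤ (n : ℝ) + 1 := by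
    have : (0 : ℝ) ≤ n := Nat.cast_nonneg n
    linarith
  have hn0 : (0 : ℝ) < (n : ℝ) + 1 := by linarith
  refine (norm_add_le _ _).trans (add_le_add ?_ ?_)
  · refine (norm_sum_le _ _).trans ?_
    rw [Finset.sum_mul]
    refine Finset.sum_le_sum fun i hi => ?_
    refine (norm_sum_le _ _).trans ?_
    rw [Finset.sum_mul]
    refine Finset.sum_le_sum fun j hj => ?_
    have hj' : j + 1 ≤ d.J := Finset.mem_range.1 hj
    rw [norm_mul, norm_mul, norm_pow, hS1 i hi, Complex.norm_natCast]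
    have h1 := choose_le_pow' n j
    have h2 : ((n : ℝ) + 1) ^ j * ((n : ℝ) + 1) ≤ ((n : ℝ) + 1) ^ d.J := by
      rw [← pow_succ]
      exact pow_le_pow_right₀ hn1 hj'
    have h3 : (n.choose j : ℝ) ≤ ((n : ℝ) + 1) ^ d.J / ((n : ℝ) + 1) := by
      rw [le_div_iff₀ hn0]
      exact (mul_le_mul_of_nonneg_right h1 hn0.le).trans h2
    have h4 : 0 < d.ρ ^ n := by positivity
    calc ‖d.c i j‖ * (n.choose j : ℝ) * d.ρ ^ n
        ≤ ‖d.c i j‖ * (((n : ℝ) + 1) ^ d.J / ((n : ℝ) + 1)) * d.ρ ^ n := by gcongr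
      _ = _ := by ring
  · refine (norm_sum_le _ _).trans ?_
    rw [Finset.sum_mul]
    refine Finset.sum_le_sum fun i hi => ?_
    refine (norm_sum_le _ _).trans ?_
    rw [Finset.sum_mul]
    refine Finset.sum_le_sum fun j hj => ?_
    have hj' : j ≤ l.length := (Finset.mem_range.1 hj).le
    rw [norm_mul, norm_mul, norm_pow, Complex.norm_natCast, mul_assoc]
    have h1 := choose_le_pow' n j
    have h2 : ((n : ℝ) + 1) ^ j ≤ ((n : ℝ) + 1) ^ l.length := pow_le_pow_right₀ hn1 hj'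
    have h3 : ‖d.lam i‖ ^ n ≤ μ ^ n := pow_le_pow_left₀ (norm_nonneg _) (hle i hi) n
    gcongr
    exact h1.trans h2

end Pool.Agent.J4H65.UP
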