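import Pool.Agent.J4H65.UP.Synd

/-!
# The dominant part along a residue class
-/

set_option autoImplicit false

namespace Pool.Agent.J4H65.UP

open Polynomial Filter Topology Pool.Agent.H612.LR Pool.Agent.H612.LR.CLCaux

/-- Level data whose top level does not cancel. -/
structure Cls (l : Rec) (d : CD) : Prop where
  lev : d.Lev l
  jlt : d.J < l.length
  rpos : 0 < d.ρ
  sep : ∀ i ∈ d.S l.length 1, ∀ i' ∈ d.S l.length 1, d.lam i ^ d.q = d.lam i' ^ d.q →
    d.κ i = d.κ i'
  act : ∃ s, ∑ i ∈ (d.S l.length 1).filter (fun i => d.κ i = s),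
    d.c i d.J * d.lam i ^ d.m ≠ 0

/-- The change of the index in the class. -/
theorem lev_shift {l : Rec} {d : CD} (h : d.Lev l) (t : ℕ) :
    CD.Lev { d with m := d.m + d.q * t } l := by
  have key : ∀ (U : Finset ℕ) (s j : ℕ), (∀ i ∈ U, i < l.length) →
      ∑ i ∈ U.filter (fun i => d.κ i = s), d.c i j * d.lam i ^ d.m = 0 →
      ∑ i ∈ U.filter (fun i => d.κ i = s), d.c i j * d.lam i ^ (d.m + d.q * t) = 0 := by
    intro U s j hU h0
    have e : ∑ i ∈ U.filter (fun i => d.κ i = s), d.c i j * d.lam i ^ (d.m + d.q * t) =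
        (∑ i ∈ U.filter (fun i => d.κ i = s), d.c i j * d.lam i ^ d.m) *
          (d.lam s ^ d.q) ^ t := by
      rw [Finset.sum_mul]
      refine Finset.sum_congr rfl fun i hi => ?_
      obtain ⟨hi1, hi2⟩ := Finset.mem_filter.1 hi
      have h1 := (h.cls i (hU i hi1)).2
      rw [hi2] at h1
      rw [pow_add, pow_mul, h1]
      ring
    rw [e, h0, zero_mul]
  have hS : ∀ u, ∀ i ∈ d.S l.length u, i < l.length := by
    intro u i hi
    unfold CD.S at hi
    exact Finset.mem_range.1 (Finset.mem_filter.1 hi).1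
  exact ⟨h.rho, h.q1, h.flag, h.cls, fun s hs j hj => key _ s j (hS 0) (h.can0 s hs j hj),
    fun s hs j hj hJ => key _ s j (hS 1) (h.can1 s hs j hj hJ)⟩

/-- For every residue class either all terms vanish or there is a top level. -/
theorem class_data (l : Rec) (lam : ℕ → ℂ) (c : ℕ → ℕ → ℂ) (q0 : ℕ)
    (hk : 1 ≤ l.length) (hrep : Rep l lam c)
    (hroot : ∀ i < l.length, (∃ j < l.length, c i j ≠ 0) → IsRoot l (lam i))
    (hq0 : 1 ≤ q0) (r : ℕ) :
    ∃ d : CD, d.lam = lam ∧ d.c = c ∧ d.q = q0 ∧ d.m = r ∧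
      ((d.ρ = 0 ∧ d.Lev l ∧ d.J < l.length) ∨ Cls l d) := by
  classical
  set k := l.length with hkdef
  set Act : Finset ℕ := (Finset.range k).filter (fun i => ∃ j < k, c i j ≠ 0) with hAct
  have hActk : ∀ i ∈ Act, i < k := fun i hi => Finset.mem_range.1 (Finset.mem_filter.1 hi).1
  have hActn : ∀ i < k, i ∉ Act → ∀ j < k, c i j = 0 := by
    intro i hi hn j hj
    by_contra h
    exact hn (Finset.mem_filter.2 ⟨Finset.mem_range.2 hi, j, hj, h⟩)
  have hActroot : ∀ i ∈ Act, IsRoot l (lam i) := fun i hi =>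
    hroot i (hActk i hi) (Finset.mem_filter.1 hi).2
  have hlam0 : ∀ i < k, lam i ≠ 0 := (hrep 0).1
  obtain ⟨κ, hκ1, hκ2, hκ3⟩ := exists_kappa Act (fun i => lam i ^ q0)
  have hκk : ∀ i < k, κ i < k ∧ lam i ^ q0 = lam (κ i) ^ q0 := by
    intro i hi
    by_cases h : i ∈ Act
    · exact ⟨hActk _ (hκ1 i h).1, (hκ1 i h).2.symm⟩
    · rw [hκ3 i h]
      exact ⟨hi, rfl⟩
  have hmod : ∀ i ∈ Act, ‖lam (κ i)‖ = ‖lam i‖ := by
    intro i hi
    have h1 : ‖lam (κ i)‖ ^ q0 = ‖lam i‖ ^ q0 := by
      rw [← norm_pow, ← norm_pow]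
      exact congrArg _ (hκ1 i hi).2
    exact (pow_left_inj₀ (norm_nonneg _) (norm_nonneg _) (by omega)).1 h1
  set G : ℕ → ℕ → ℂ := fun s j => ∑ i ∈ Act.filter (fun i => κ i = s), c i j * lam i ^ r
    with hG
  have hG0 : ∀ s, s ∉ Act → ∀ j, G s j = 0 := by
    intro s hs j
    simp only [hG]
    refine Finset.sum_eq_zero fun i hi => ?_
    obtain ⟨hi1, hi2⟩ := Finset.mem_filter.1 hi
    exact absurd (hi2 ▸ (hκ1 i hi1).1) hs
  set T : Finset ℕ := Act.filter (fun s => ∃ j < k, G s j ≠ 0) with hT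
  rcases Finset.eq_empty_or_nonempty T with hTe | hTne
  · -- everything cancels
    have hGz : ∀ s, ∀ j < k, G s j = 0 := by
      intro s j hj
      by_cases hs : s ∈ Act
      · by_contra h
        have : s ∈ T := Finset.mem_filter.2 ⟨hs, j, hj, h⟩
        rw [hTe] at this
        exact absurd this (Finset.notMem_empty s)
      · exact hG0 s hs j
    refine ⟨{ lam := lam, c := c, ρ := 0, J := 0, m := r, q := q0, P := fun _ => 0,
              a := fun _ _ => 0, b := fun _ _ => 0, ζ := 1, ξ := fun _ => 1, x := fun _ => 1,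
              h := fun _ _ => 1, fl := fun _ => 0, κ := κ }, rfl, rfl, rfl, rfl, Or.inl
              ⟨rfl, ?_, hk⟩⟩
    refine ⟨le_refl _, hq0, fun i _ => Or.inl rfl, hκk, ?_, ?_⟩
    · intro s hs j hj
      show ∑ i ∈ ((Finset.range k).filter fun i => (0 : ℕ) = 0).filter (fun i => κ i = s),
        c i j * lam i ^ r = 0
      rw [← hGz s j hj]
      simp only [hG]
      symm
      refine Finset.sum_subset ?_ ?_
      · intro i hi
        obtain ⟨hi1, hi2⟩ := Finset.mem_filter.1 hi
        exact Finset.mem_filter.2 ⟨Finset.mem_filter.2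
          ⟨Finset.mem_range.2 (hActk i hi1), trivial⟩, hi2⟩
      · intro i hi hn
        obtain ⟨hi1, hi2⟩ := Finset.mem_filter.1 hi
        have hik : i < k := Finset.mem_range.1 (Finset.mem_filter.1 hi1).1
        have : i ∉ Act := fun h => hn (Finset.mem_filter.2 ⟨h, hi2⟩)
        rw [hActn i hik this j hj, zero_mul]
    · intro s hs j hj hj0
      show ∑ i ∈ ((Finset.range k).filter fun i => (0 : ℕ) = 1).filter (fun i => κ i = s),
        c i j * lam i ^ r = 0
      refine Finset.sum_eq_zero fun i hi => ?_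
      have := (Finset.mem_filter.1 (Finset.mem_filter.1 hi).1).2
      exact absurd this (by norm_num)
  · -- the top level
    obtain ⟨s0, hs0T, hs0max⟩ := Finset.exists_max_image T (fun s => ‖lam s‖) hTne
    set ρ : ℝ := ‖lam s0‖ with hρ
    have hs0A : s0 ∈ Act := (Finset.mem_filter.1 hs0T).1
    have hρ0 : 0 < ρ := norm_pos_iff.2 (hlam0 s0 (hActk s0 hs0A))
    set Js : Finset ℕ := (Finset.range k).filter
      (fun j => ∃ s ∈ Act, ‖lam s‖ = ρ ∧ G s j ≠ 0) with hJs
    have hJsne : Js.Nonempty := by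
      obtain ⟨j, hj, hj'⟩ := (Finset.mem_filter.1 hs0T).2
      exact ⟨j, Finset.mem_filter.2 ⟨Finset.mem_range.2 hj, s0, hs0A, rfl, hj'⟩⟩
    obtain ⟨J, hJmem, hJmax⟩ : ∃ J ∈ Js, ∀ j ∈ Js, j ≤ J :=
      ⟨Js.max' hJsne, Finset.max'_mem _ _, fun j hj => Finset.le_max' _ _ hj⟩
    have hJk : J < k := Finset.mem_range.1 (Finset.mem_filter.1 hJmem).1
    obtain ⟨s1, hs1A, hs1ρ, hs1G⟩ := (Finset.mem_filter.1 hJmem).2
    have hGJ : ∀ s ∈ Act, ‖lam s‖ = ρ → ∀ j < k, J < j → G s j = 0 := by
      intro s hs hsρ j hj hJj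
      by_contra h
      have := hJmax j (Finset.mem_filter.2 ⟨Finset.mem_range.2 hj, s, hs, hsρ, h⟩)
      omega
    have hGbig : ∀ s ∈ Act, ρ < ‖lam s‖ → ∀ j < k, G s j = 0 := by
      intro s hs hsρ j hj
      by_contra h
      have := hs0max s (Finset.mem_filter.2 ⟨hs, j, hj, h⟩)
      exact absurd hsρ (not_lt.2 this)
    set fl : ℕ → ℕ := fun i => if ρ < ‖lam i‖ then 0 else if ‖lam i‖ < ρ then 2
      else if i ∈ Act then 1 else 0 with hfl
    have hfl1 : ∀ i, fl i = 1 ↔ ‖lam i‖ = ρ ∧ i ∈ Act := by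
      intro i
      simp only [hfl]
      rcases lt_trichotomy (‖lam i‖) ρ with h | h | h
      · rw [if_neg (not_lt.2 h.le), if_pos h]
        simp [h.ne]
      · rw [if_neg (not_lt.2 h.le), if_neg (not_lt.2 h.ge)]
        by_cases hi : i ∈ Act
        · simp [hi, h]
        · simp [hi]
      · rw [if_pos h]
        simp [h.ne']
    have hfl0 : ∀ i, fl i = 0 ↔ ρ < ‖lam i‖ ∨ (‖lam i‖ = ρ ∧ i ∉ Act) := by
      intro i
      simp only [hfl]
      rcases lt_trichotomy (‖lam i‖) ρ with h | h | h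
      · rw [if_neg (not_lt.2 h.le), if_pos h]
        simp [h.ne, not_lt.2 h.le]
      · rw [if_neg (not_lt.2 h.le), if_neg (not_lt.2 h.ge)]
        by_cases hi : i ∈ Act
        · simp [hi, h]
        · simp [hi, h]
      · rw [if_pos h]
        simp [h]
    have hfl2 : ∀ i, fl i = 2 ↔ ‖lam i‖ < ρ := by
      intro i
      simp only [hfl]
      rcases lt_trichotomy (‖lam i‖) ρ with h | h | h
      · rw [if_neg (not_lt.2 h.le), if_pos h]
        simp [h]
      · rw [if_neg (not_lt.2 h.le), if_neg (not_lt.2 h.ge)]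
        by_cases hi : i ∈ Act
        · simp [hi, h]
        · simp [hi, h]
      · rw [if_pos h]
        simp [not_lt.2 h.le]
    -- sums over the flagged indices of a class
    have hsum1 : ∀ s j, ∑ i ∈ ((Finset.range k).filter fun i => fl i = 1).filter
        (fun i => κ i = s), c i j * lam i ^ r = if s ∈ Act ∧ ‖lam s‖ = ρ then G s j else 0 := by
      intro s j
      split_ifs with hs
      · simp only [hG]
        refine Finset.sum_congr ?_ fun _ _ => rfl
        ext i
        simp only [Finset.mem_filter, Finset.mem_range]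
        constructor
        · rintro ⟨⟨h1, h2⟩, h3⟩
          exact ⟨((hfl1 i).1 h2).2, h3⟩
        · rintro ⟨h1, h2⟩
          refine ⟨⟨hActk i h1, (hfl1 i).2 ⟨?_, h1⟩⟩, h2⟩
          rw [← hmod i h1, h2]
          exact hs.2
      · refine Finset.sum_eq_zero fun i hi => ?_
        exfalso
        obtain ⟨hi1, hi2⟩ := Finset.mem_filter.1 hi
        have h1 := (hfl1 i).1 (Finset.mem_filter.1 hi1).2
        apply hs
        refine ⟨hi2 ▸ (hκ1 i h1.2).1, ?_⟩
        rw [← hi2, hmod i h1.2]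
        exact h1.1
    refine ⟨{ lam := lam, c := c, ρ := ρ, J := J, m := r, q := q0, P := fun _ => 0,
              a := fun _ _ => 0, b := fun _ _ => 0, ζ := 1, ξ := fun _ => 1, x := fun _ => 1,
              h := fun _ _ => 1, fl := fl, κ := κ }, rfl, rfl, rfl, rfl, Or.inr
              ⟨?_, hJk, hρ0, ?_, ?_⟩⟩
    · refine ⟨hρ0.le, hq0, ?_, hκk, ?_, ?_⟩
      · intro i hi
        show fl i = 0 ∨ (fl i = 1 ∧ ‖lam i‖ = ρ ∧ IsRoot l (lam i)) ∨ (fl i = 2 ∧ ‖lam i‖ < ρ)
        rcases lt_trichotomy (‖lam i‖) ρ with h | h | h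
        · exact Or.inr (Or.inr ⟨(hfl2 i).2 h, h⟩)
        · by_cases hiA : i ∈ Act
          · exact Or.inr (Or.inl ⟨(hfl1 i).2 ⟨h, hiA⟩, h, hActroot i hiA⟩)
          · exact Or.inl ((hfl0 i).2 (Or.inr ⟨h, hiA⟩))
        · exact Or.inl ((hfl0 i).2 (Or.inl h))
      · intro s hs j hj
        show ∑ i ∈ ((Finset.range k).filter fun i => fl i = 0).filter (fun i => κ i = s),
          c i j * lam i ^ r = 0
        by_cases hs' : s ∈ Act ∧ ρ < ‖lam s‖
        · rw [← hGbig s hs'.1 hs'.2 j hj]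
          simp only [hG]
          symm
          refine Finset.sum_subset ?_ ?_
          · intro i hi
            obtain ⟨hi1, hi2⟩ := Finset.mem_filter.1 hi
            refine Finset.mem_filter.2 ⟨Finset.mem_filter.2 ⟨Finset.mem_range.2 (hActk i hi1),
              (hfl0 i).2 (Or.inl ?_)⟩, hi2⟩
            rw [← hmod i hi1, hi2]
            exact hs'.2
          · intro i hi hn
            obtain ⟨hi1, hi2⟩ := Finset.mem_filter.1 hi
            have hik : i < k := Finset.mem_range.1 (Finset.mem_filter.1 hi1).1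
            have : i ∉ Act := fun h => hn (Finset.mem_filter.2 ⟨h, hi2⟩)
            rw [hActn i hik this j hj, zero_mul]
        · refine Finset.sum_eq_zero fun i hi => ?_
          obtain ⟨hi1, hi2⟩ := Finset.mem_filter.1 hi
          obtain ⟨hi3, hi4⟩ := Finset.mem_filter.1 hi1
          have hik : i < k := Finset.mem_range.1 hi3
          have : i ∉ Act := by
            intro h
            rcases (hfl0 i).1 hi4 with h5 | h5
            · apply hs'
              refine ⟨hi2 ▸ (hκ1 i h).1, ?_⟩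
              rw [← hi2, hmod i h]
              exact h5
            · exact h5.2 h
          rw [hActn i hik this j hj, zero_mul]
      · intro s hs j hj hj0
        show ∑ i ∈ ((Finset.range k).filter fun i => fl i = 1).filter (fun i => κ i = s),
          c i j * lam i ^ r = 0
        rw [hsum1]
        split_ifs with h
        · exact hGJ s h.1 h.2 j hj hj0
        · rfl
    · intro i hi i' hi' h
      have h1 : i ∈ (Finset.range k).filter fun i => fl i = 1 := hi
      have h2 : i' ∈ (Finset.range k).filter fun i => fl i = 1 := hi'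
      exact hκ2 i ((hfl1 i).1 (Finset.mem_filter.1 h1).2).2 i'
        ((hfl1 i').1 (Finset.mem_filter.1 h2).2).2 h
    · refine ⟨s1, ?_⟩
      show ∑ i ∈ ((Finset.range k).filter fun i => fl i = 1).filter (fun i => κ i = s1),
          c i J * lam i ^ r ≠ 0
      rw [hsum1, if_pos ⟨hs1A, hs1ρ⟩]
      exact hs1G

end Pool.Agent.J4H65.UP
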