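import Pool.Agent.J4H65.UP.Dich

/-!
# Critical recurrences
-/

set_option autoImplicit false

namespace Pool.Agent.J4H65.UP

open Polynomial Filter Topology Pool.Agent.H612.LR
open scoped Classical

/-- The quotients `u_n / (ρ^n (n+1)^m)` along the arithmetic progression `n = a + b t`. -/
noncomputable def quo (l : Rec) (a b m : ℕ) (ρ : ℝ) (t : ℕ) : ℝ :=
  (seq l (a + b * t) : ℝ) / (ρ ^ (a + b * t) * (((a + b * t : ℕ) : ℝ) + 1) ^ m)

/-- The recurrence is critical: for some `ρ > 0` and `m ≥ 1` and for every `q ≥ 1` there is an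
arithmetic progression `n = a + b t` with a difference `b ≥ 1` divisible by `q`, along which the
quotients `u_n / (ρ^n (n+1)^m)` are bounded, do not tend to zero, and have the lower limit zero. -/
def Critical (l : Rec) : Prop :=
  ∃ (ρ : ℝ) (m : ℕ), 0 < ρ ∧ 1 ≤ m ∧ ∀ q : ℕ, 1 ≤ q → ∃ a b : ℕ, 1 ≤ b ∧ q ∣ b ∧
    (∃ C : ℝ, ∀ t, |quo l a b m ρ t| ≤ C) ∧ ¬ Tendsto (quo l a b m ρ) atTop (𝓝 0) ∧
    liminf (quo l a b m ρ) atTop = 0

/-- comparison of the two normalisations -/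
theorem kap_bounds (J : ℕ) : ∃ c0 : ℝ, 0 < c0 ∧ ∀ n : ℕ, 2 * J + 1 ≤ n →
    c0 ≤ (n.choose J : ℝ) / ((n : ℝ) + 1) ^ J ∧ (n.choose J : ℝ) / ((n : ℝ) + 1) ^ J ≤ 1 := by
  have hf : (0 : ℝ) < (J.factorial : ℝ) := by exact_mod_cast Nat.factorial_pos J
  refine ⟨1 / (2 ^ J * J.factorial), by positivity, fun n hn => ⟨?_, ?_⟩⟩
  · have h3 : ((n + 1 - J : ℕ) ^ J : ℝ) / J.factorial ≤ (n.choose J : ℝ) := Nat.pow_le_choose _ _
    have h4 : ((n : ℝ) + 1) / 2 ≤ ((n + 1 - J : ℕ) : ℝ) := by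
      have h5 : n + 1 ≤ 2 * (n + 1 - J) := by omega
      have h6 : ((n + 1 : ℕ) : ℝ) ≤ 2 * ((n + 1 - J : ℕ) : ℝ) := by exact_mod_cast h5
      push_cast at h6
      linarith
    rw [div_le_div_iff₀ (by positivity) (by positivity)]
    calc 1 * ((n : ℝ) + 1) ^ J = 2 ^ J * (J.factorial : ℝ) *
          ((((n : ℝ) + 1) / 2) ^ J / J.factorial) := by
          rw [div_pow]; field_simp
      _ ≤ 2 ^ J * (J.factorial : ℝ) * (((n + 1 - J : ℕ) ^ J : ℝ) / J.factorial) := by gcongr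
      _ ≤ 2 ^ J * (J.factorial : ℝ) * (n.choose J : ℝ) := by gcongr
      _ = _ := by ring
  · rw [div_le_one (by positivity)]
    exact choose_le_pow' n J

theorem quo_eq (l : Rec) (d : CD) (hρ : 0 < d.ρ) (t : ℕ) (ht : d.J ≤ d.m + d.q * t) :
    quo l d.m d.q d.J d.ρ t = wn l d t *
      (((d.m + d.q * t).choose d.J : ℝ) / (((d.m + d.q * t : ℕ) : ℝ) + 1) ^ d.J) := by
  unfold quo wn
  have h1 : ((d.m + d.q * t).choose d.J : ℝ) ≠ 0 := by
    have : 0 < (d.m + d.q * t).choose d.J := Nat.choose_pos ht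
    exact_mod_cast this.ne'
  field_simp

theorem wn_bdd (l : Rec) (d : CD) (hrep : Rep l d.lam d.c) (h : Cls l d) :
    ∃ (C : ℝ) (N : ℕ), 0 ≤ C ∧ ∀ t, N ≤ t → |wn l d t| ≤ C := by
  have hS1 : ∀ i ∈ d.S l.length 1, ‖d.lam i / (d.ρ : ℂ)‖ = 1 := by
    intro i hi
    unfold CD.S at hi
    rw [Finset.mem_filter, Finset.mem_range] at hi
    rcases h.lev.flag i hi.1 with h1 | ⟨-, h1, -⟩ | ⟨h1, -⟩
    · omega
    · rw [norm_div, h1, Complex.norm_real, Real.norm_of_nonneg h.rpos.le, div_self h.rpos.ne']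
    · omega
  have hc := close l d hrep h.lev h.jlt h.rpos
  rw [Metric.tendsto_atTop] at hc
  obtain ⟨N, hN⟩ := hc 1 one_pos
  have hsum : 0 ≤ ∑ i ∈ d.S l.length 1, ‖d.c i d.J‖ :=
    Finset.sum_nonneg fun i _ => norm_nonneg _
  refine ⟨1 + ∑ i ∈ d.S l.length 1, ‖d.c i d.J‖, N, by linarith, fun t ht => ?_⟩
  have h1 := hN t ht
  rw [dist_zero_right] at h1
  have h2 : ‖dpart l.length d t‖ ≤ ∑ i ∈ d.S l.length 1, ‖d.c i d.J‖ := by
    unfold dpart
    refine (norm_sum_le _ _).trans (Finset.sum_le_sum fun i hi => ?_)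
    rw [norm_mul, norm_pow, hS1 i hi, one_pow, mul_one]
  have h3 : ‖((wn l d t : ℝ) : ℂ)‖ ≤ ‖((wn l d t : ℝ) : ℂ) - dpart l.length d t‖ +
      ‖dpart l.length d t‖ := by
    have := norm_add_le (((wn l d t : ℝ) : ℂ) - dpart l.length d t) (dpart l.length d t)
    rwa [sub_add_cancel] at this
  rw [Complex.norm_real, Real.norm_eq_abs] at h3
  linarith

theorem wn_not_tendsto (l : Rec) (d : CD) (hrep : Rep l d.lam d.c) (h : Cls l d) :
    ¬ Tendsto (wn l d) atTop (𝓝 0) := by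
  intro hw
  apply dpart_not_tendsto l d h
  have hc := close l d hrep h.lev h.jlt h.rpos
  have hw' : Tendsto (fun t => ((wn l d t : ℝ) : ℂ)) atTop (𝓝 0) := by
    have := (Complex.continuous_ofReal.tendsto 0).comp hw
    simpa [Function.comp_def] using this
  have := hw'.sub hc
  simpa using this

/-- bounded from some place on, hence bounded -/
theorem bdd_of_eventually (v : ℕ → ℝ) (C : ℝ) (N : ℕ) (h : ∀ t, N ≤ t → |v t| ≤ C) :
    ∃ C' : ℝ, ∀ t, |v t| ≤ C' := by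
  refine ⟨|C| + ∑ t ∈ Finset.range N, |v t|, fun t => ?_⟩
  have h0 : 0 ≤ ∑ t ∈ Finset.range N, |v t| := Finset.sum_nonneg fun _ _ => abs_nonneg _
  by_cases ht : N ≤ t
  · have := h t ht
    have := le_abs_self C
    linarith
  · have h1 : |v t| ≤ ∑ t ∈ Finset.range N, |v t| :=
      Finset.single_le_sum (f := fun t => |v t|) (fun _ _ => abs_nonneg _)
        (Finset.mem_range.2 (not_le.1 ht))
    have := abs_nonneg C
    linarith

theorem quo_sub (l : Rec) (a b m : ℕ) (ρ : ℝ) (a' q t : ℕ) :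
    quo l (a + b * a') (b * q) m ρ t = quo l a b m ρ (a' + q * t) := by
  unfold quo
  have e : a + b * a' + b * q * t = a + b * (a' + q * t) := by ring
  rw [e]

/-- pigeonhole for small values -/
theorem pigeon_small (f : ℕ → ℝ) (hsm : ∀ ε : ℝ, 0 < ε → ∀ N : ℕ, ∃ t, N ≤ t ∧ f t < ε)
    (q : ℕ) (hq : 1 ≤ q) : ∃ a' < q, ∀ ε : ℝ, 0 < ε → ∀ N : ℕ, ∃ t, N ≤ t ∧
      f (a' + q * t) < ε := by
  by_contra hcon
  push Not at hcon
  choose! e he N hN using hcon
  obtain ⟨ε0, hε0, hε0'⟩ : ∃ ε0 : ℝ, 0 < ε0 ∧ ∀ r < q, ε0 ≤ e r := by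
    have : ∀ k ≤ q, ∃ ε0 : ℝ, 0 < ε0 ∧ ∀ r < k, ε0 ≤ e r := by
      intro k
      induction k with
      | zero => intro _; exact ⟨1, one_pos, fun r hr => absurd hr (Nat.not_lt_zero r)⟩
      | succ k ih =>
        intro hk
        obtain ⟨ε1, h1, h2⟩ := ih (by omega)
        refine ⟨min ε1 (e k), lt_min h1 (he k (by omega)), fun r hr => ?_⟩
        rcases Nat.lt_succ_iff_lt_or_eq.1 hr with h | rfl
        · exact (min_le_left _ _).trans (h2 r h)
        · exact min_le_right _ _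
    exact this q le_rfl
  obtain ⟨t, ht1, ht2⟩ := hsm ε0 hε0 (q * (1 + ∑ r ∈ Finset.range q, N r))
  have h1 : t % q < q := Nat.mod_lt _ hq
  have h2 : 1 + ∑ r ∈ Finset.range q, N r ≤ t / q := (Nat.le_div_iff_mul_le hq).2 (by
    rw [mul_comm]; exact ht1)
  have h3 : N (t % q) ≤ ∑ r ∈ Finset.range q, N r :=
    Finset.single_le_sum (fun _ _ => Nat.zero_le _) (Finset.mem_range.2 h1)
  have h4 := hN (t % q) h1 (t / q) (by omega)
  rw [Nat.mod_add_div] at h4
  have h5 := hε0' (t % q) h1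
  linarith

/-- A nonnegative dominant part with a polynomial factor and arbitrarily small values. -/
theorem critical_of_cls (l : Rec) (d : CD) (hrep : Rep l d.lam d.c) (h : Cls l d)
    (hJ : 1 ≤ d.J)
    (htor : ∀ i ∈ d.S l.length 1, ∀ i' ∈ d.S l.length 1, ∀ t : ℕ, 1 ≤ t →
      d.lam i ^ (d.q * t) = d.lam i' ^ (d.q * t) → d.lam i ^ d.q = d.lam i' ^ d.q)
    (hnn : ∀ t, 0 ≤ (dpart l.length d t).re)
    (hsm : ∀ ε : ℝ, 0 < ε → ∀ N : ℕ, ∃ t, N ≤ t ∧ (dpart l.length d t).re < ε) :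
    Critical l := by
  obtain ⟨c0, hc0, hkap⟩ := kap_bounds d.J
  have hq := h.lev.q1
  have hidx : ∀ t, 2 * d.J + 1 ≤ t → 2 * d.J + 1 ≤ d.m + d.q * t := by
    intro t ht
    have : t ≤ d.q * t := Nat.le_mul_of_pos_left _ hq
    omega
  have hquo : ∀ t, 2 * d.J + 1 ≤ t → ∃ κ : ℝ, c0 ≤ κ ∧ κ ≤ 1 ∧
      quo l d.m d.q d.J d.ρ t = wn l d t * κ := by
    intro t ht
    have h1 := hidx t ht
    obtain ⟨h2, h3⟩ := hkap _ h1
    exact ⟨_, h2, h3, quo_eq l d h.rpos t (by omega)⟩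
  have hc := close l d hrep h.lev h.jlt h.rpos
  have hre : ∀ ε : ℝ, 0 < ε → ∃ N, ∀ t, N ≤ t → |wn l d t - (dpart l.length d t).re| < ε := by
    intro ε hε
    obtain ⟨N, hN⟩ := (Metric.tendsto_atTop.1 hc) ε hε
    refine ⟨N, fun t ht => ?_⟩
    have h1 := hN t ht
    rw [dist_zero_right] at h1
    have h2 := (Complex.abs_re_le_norm (((wn l d t : ℝ) : ℂ) - dpart l.length d t)).trans_lt h1
    rwa [Complex.sub_re, Complex.ofReal_re] at h2
  obtain ⟨C, N0, hC0, hbd⟩ := wn_bdd l d hrep h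
  have hbound : ∃ C' : ℝ, ∀ t, |quo l d.m d.q d.J d.ρ t| ≤ C' := by
    refine bdd_of_eventually _ C (N0 + 2 * d.J + 1) fun t ht => ?_
    obtain ⟨κ, hκ1, hκ2, he⟩ := hquo t (by omega)
    rw [he, abs_mul, abs_of_nonneg (hc0.le.trans hκ1)]
    have h1 := hbd t (by omega)
    nlinarith [abs_nonneg (wn l d t)]
  obtain ⟨C', hC'⟩ := hbound
  obtain ⟨I, g, x, hx, hg, hnd, hform, -⟩ := dpart_form l d h htor
  refine ⟨d.ρ, d.J, h.rpos, hJ, fun q hq1 => ?_⟩
  obtain ⟨a', ha', hsm'⟩ := pigeon_small (fun t => (dpart l.length d t).re) hsm q hq1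
  have hle : ∀ t, t ≤ a' + q * t := fun t => by
    have : t ≤ q * t := Nat.le_mul_of_pos_left _ hq1
    omega
  have hqe : quo l (d.m + d.q * a') (d.q * q) d.J d.ρ =
      fun t => quo l d.m d.q d.J d.ρ (a' + q * t) := funext fun t => quo_sub l d.m d.q d.J d.ρ a' q t
  refine ⟨d.m + d.q * a', d.q * q, Nat.mul_pos hq hq1, Dvd.intro_left _ rfl,
    ⟨C', fun t => by rw [hqe]; exact hC' _⟩, ?_, ?_⟩
  · intro hlim
    rw [hqe] at hlim
    -- the normalised terms tend to zero along the subclass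
    have hw0 : Tendsto (fun t => wn l d (a' + q * t)) atTop (𝓝 0) := by
      rw [Metric.tendsto_atTop] at hlim ⊢
      intro ε hε
      obtain ⟨N, hN⟩ := hlim (ε * c0) (by positivity)
      refine ⟨N + 2 * d.J + 1, fun t ht => ?_⟩
      obtain ⟨κ, hκ1, hκ2, he⟩ := hquo (a' + q * t) (by have := hle t; omega)
      have h1 := hN t (by omega)
      rw [Real.dist_0_eq_abs, he, abs_mul, abs_of_nonneg (hc0.le.trans hκ1)] at h1
      rw [Real.dist_0_eq_abs]
      by_contra hcon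
      rw [not_lt] at hcon
      have : ε * c0 ≤ |wn l d (a' + q * t)| * κ := mul_le_mul hcon hκ1 hc0.le (abs_nonneg _)
      linarith
    have hc' := hc.comp (tendsto_index a' q hq1)
    have hw' : Tendsto (fun t => ((wn l d (a' + q * t) : ℝ) : ℂ)) atTop (𝓝 0) := by
      have := (Complex.continuous_ofReal.tendsto 0).comp hw0
      simpa [Function.comp_def] using this
    have hd0 := hw'.sub hc'
    have hd1 : Tendsto (fun t : ℕ => ∑ s ∈ I, (g s * x s ^ a') * (x s ^ q) ^ t) atTop (𝓝 0) := by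
      rw [sub_zero] at hd0
      refine hd0.congr fun t => ?_
      simp only [Function.comp_def, sub_sub_cancel]
      rw [hform]
      refine Finset.sum_congr rfl fun s _ => ?_
      rw [pow_add, pow_mul]
      ring
    obtain ⟨s1, hs1, hs1'⟩ := hg
    have hz := t_MEAN I (fun s => x s ^ q) (fun s => g s * x s ^ a') (fun s hs => by
      rw [norm_pow, hx s hs, one_pow]) (fun s hs s' hs' heq => by
      by_contra hne
      exact hnd s hs s' hs' hne q hq1 heq) hd1 s1 hs1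
    rcases mul_eq_zero.1 (show g s1 * x s1 ^ a' = 0 from hz) with h0 | h0
    · exact hs1' h0
    · have hx0 : x s1 ≠ 0 := by
        intro h0'
        have := hx s1 hs1
        rw [h0', norm_zero] at this
        exact zero_ne_one this
      exact pow_ne_zero _ hx0 h0
  · rw [hqe]
    apply le_antisymm
    · refine le_of_forall_pos_le_add fun ε hε => ?_
      rw [zero_add]
      refine liminf_le_of_frequently_le ?_ ?_
      · rw [frequently_atTop]
        intro N
        obtain ⟨N1, hN1⟩ := hre (ε / 2) (by positivity)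
        obtain ⟨t, ht, hts⟩ := hsm' (ε / 2) (by positivity) (N + N1 + 2 * d.J + 1)
        have hlt := hle t
        refine ⟨t, by omega, ?_⟩
        obtain ⟨κ, hκ1, hκ2, he⟩ := hquo (a' + q * t) (by omega)
        have h1 := (abs_lt.1 (hN1 (a' + q * t) (by omega))).2
        rw [he]
        have h2 : wn l d (a' + q * t) ≤ ε := by linarith
        have hκ0 : 0 ≤ κ := hc0.le.trans hκ1
        nlinarith
      · exact isBoundedUnder_of ⟨-C', fun t => (abs_le.1 (hC' _)).1⟩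
    · refine le_of_forall_pos_sub_le fun ε hε => ?_
      refine le_liminf_of_le ?_ ?_
      · exact (isBoundedUnder_of ⟨C', fun t => (abs_le.1 (hC' _)).2⟩ :
          IsBoundedUnder (· ≤ ·) atTop (fun t => quo l d.m d.q d.J d.ρ
            (a' + q * t))).isCoboundedUnder_ge
      · obtain ⟨N1, hN1⟩ := hre ε hε
        filter_upwards [eventually_ge_atTop (N1 + 2 * d.J + 1)] with t ht
        have hlt := hle t
        obtain ⟨κ, hκ1, hκ2, he⟩ := hquo (a' + q * t) (by omega)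
        have h1 := (abs_lt.1 (hN1 (a' + q * t) (by omega))).1
        have h2 := hnn (a' + q * t)
        rw [he]
        have h3 : -ε ≤ wn l d (a' + q * t) := by linarith
        have hκ0 : 0 ≤ κ := hc0.le.trans hκ1
        nlinarith

end Pool.Agent.J4H65.UP
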