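import Mathlib

/-!
# Bounded gaps, upper Banach density zero, small values of exponential sums
-/

set_option autoImplicit false

namespace Pool.Agent.J4H65.UP

open Finset
open scoped Classical

/-- The set meets every interval of length `L`, for some `L`. -/
def BoundedGaps (A : Set ℕ) : Prop := ∃ L : ℕ, ∀ n : ℕ, ∃ m ∈ A, n ≤ m ∧ m < n + L

/-- The upper Banach density of the set is zero: for every `ε > 0`, every sufficiently long interval
of length `L` contains at most `ε L` elements of the set. -/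
def BanachNull (A : Set ℕ) : Prop := ∀ ε : ℝ, 0 < ε → ∃ L0 : ℕ, ∀ L : ℕ, L0 ≤ L → ∀ n : ℕ,
  (((Finset.Ico n (n + L)).filter (fun m => m ∈ A)).card : ℝ) ≤ ε * L

theorem BoundedGaps.mono {A B : Set ℕ} (h : A ⊆ B) (hA : BoundedGaps A) : BoundedGaps B := by
  obtain ⟨L, hL⟩ := hA
  exact ⟨L, fun n => by obtain ⟨m, h1, h2⟩ := hL n; exact ⟨m, h h1, h2⟩⟩

theorem BanachNull.mono {A B : Set ℕ} (h : A ⊆ B) (hB : BanachNull B) : BanachNull A := by
  intro ε hε
  obtain ⟨L0, h0⟩ := hB ε hε
  refine ⟨L0, fun L hL n => le_trans ?_ (h0 L hL n)⟩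
  have h1 : (Finset.Ico n (n + L)).filter (fun m => m ∈ A) ⊆
      (Finset.Ico n (n + L)).filter (fun m => m ∈ B) := by
    intro m hm
    rw [Finset.mem_filter] at hm ⊢
    exact ⟨hm.1, h hm.2⟩
  exact_mod_cast Finset.card_le_card h1

/-- a set with bounded gaps has many elements in long intervals -/
theorem BoundedGaps.card_ge {A : Set ℕ} {L : ℕ} (hL : ∀ n : ℕ, ∃ m ∈ A, n ≤ m ∧ m < n + L)
    (n j : ℕ) : j ≤ ((Finset.Ico n (n + j * L)).filter (fun m => m ∈ A)).card := by
  induction j with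
  | zero => exact Nat.zero_le _
  | succ j ih =>
    obtain ⟨m, hm, h1, h2⟩ := hL (n + j * L)
    have h3 : insert m ((Finset.Ico n (n + j * L)).filter (fun m => m ∈ A)) ⊆
        (Finset.Ico n (n + (j + 1) * L)).filter (fun m => m ∈ A) := by
      intro x hx
      rw [Finset.mem_insert] at hx
      rw [Finset.mem_filter, Finset.mem_Ico]
      rcases hx with rfl | hx
      · refine ⟨⟨by omega, ?_⟩, hm⟩
        calc x < n + j * L + L := h2
          _ = n + (j + 1) * L := by ring
      · rw [Finset.mem_filter, Finset.mem_Ico] at hx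
        refine ⟨⟨hx.1.1, lt_of_lt_of_le hx.1.2 ?_⟩, hx.2⟩
        nlinarith
    have h4 : m ∉ (Finset.Ico n (n + j * L)).filter (fun m => m ∈ A) := by
      intro h
      rw [Finset.mem_filter, Finset.mem_Ico] at h
      omega
    have h5 := Finset.card_le_card h3
    rw [Finset.card_insert_of_notMem h4] at h5
    omega

theorem BoundedGaps.not_null {A : Set ℕ} (hA : BoundedGaps A) : ¬ BanachNull A := by
  obtain ⟨L, hL⟩ := hA
  intro h
  have hLpos : 0 < L := by
    obtain ⟨m, _, h1, h2⟩ := hL 0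
    omega
  have hLr : (0 : ℝ) < L := by exact_mod_cast hLpos
  obtain ⟨L0, h0⟩ := h (1 / (2 * L)) (by positivity)
  have h1 := h0 ((L0 + 1) * L) (by nlinarith) 0
  have h2 := BoundedGaps.card_ge hL 0 (L0 + 1)
  have h3 : ((L0 + 1 : ℕ) : ℝ) ≤ 1 / (2 * L) * (((L0 + 1) * L : ℕ) : ℝ) :=
    le_trans (by exact_mod_cast h2) h1
  have h4 : 1 / (2 * (L : ℝ)) * (((L0 + 1) * L : ℕ) : ℝ) = ((L0 + 1 : ℕ) : ℝ) / 2 := by
    push_cast
    field_simp
  rw [h4] at h3
  have h5 : (0 : ℝ) < ((L0 + 1 : ℕ) : ℝ) := by positivity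
  linarith

/-- finite sets are null -/
theorem BanachNull.of_finite {A : Set ℕ} (N : ℕ) (hA : ∀ n, N ≤ n → n ∉ A) : BanachNull A := by
  intro ε hε
  obtain ⟨L0, hL0⟩ := exists_nat_ge ((N : ℝ) / ε)
  refine ⟨L0, fun L hL n => ?_⟩
  have h1 : ((Finset.Ico n (n + L)).filter (fun m => m ∈ A)) ⊆ Finset.range N := by
    intro m hm
    rw [Finset.mem_filter] at hm
    rw [Finset.mem_range]
    by_contra h
    exact hA m (not_lt.1 h) hm.2
  have h2 := Finset.card_le_card h1
  rw [Finset.card_range] at h2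
  calc (((Finset.Ico n (n + L)).filter (fun m => m ∈ A)).card : ℝ) ≤ N := by exact_mod_cast h2
    _ ≤ ε * L0 := by rwa [div_le_iff₀ hε, mul_comm] at hL0
    _ ≤ ε * L := by gcongr

/-- a set all of whose traces on the residue classes modulo `q` are null is null -/
theorem BanachNull.of_classes {A : Set ℕ} (q : ℕ) (hq : 1 ≤ q)
    (h : ∀ r < q, BanachNull {t | r + q * t ∈ A}) : BanachNull A := by
  intro ε hε
  have hq0 : (0 : ℝ) < q := by exact_mod_cast hq
  have hεq : 0 < ε / q := by positivity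
  choose! L0 hL0 using fun r (hr : r < q) => h r hr (ε / q) hεq
  refine ⟨1 + ∑ r ∈ Finset.range q, L0 r, fun L hL n => ?_⟩
  have hL1 : 1 ≤ L := by omega
  have hsub : (Finset.Ico n (n + L)).filter (fun m => m ∈ A) ⊆
      (Finset.range q).biUnion fun r => ((Finset.Ico ((n - r) / q) ((n - r) / q + L)).filter
        (fun t => t ∈ {t | r + q * t ∈ A})).image fun t => r + q * t := by
    intro m hm
    rw [Finset.mem_filter, Finset.mem_Ico] at hm
    obtain ⟨⟨h1, h2⟩, h3⟩ := hm
    rw [Finset.mem_biUnion]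
    refine ⟨m % q, Finset.mem_range.2 (Nat.mod_lt _ hq), ?_⟩
    rw [Finset.mem_image]
    refine ⟨m / q, ?_, Nat.mod_add_div m q⟩
    rw [Finset.mem_filter, Finset.mem_Ico]
    have h4 : m % q + q * (m / q) = m := Nat.mod_add_div m q
    refine ⟨⟨?_, ?_⟩, ?_⟩
    · rw [Nat.div_le_iff_le_mul_add_pred hq]
      have : n ≤ m % q + q * (m / q) := by omega
      omega
    · have h5 : q * (m / q) ≤ (n - m % q) + (L - 1) := by omega
      have h6 : m / q ≤ ((n - m % q) + (L - 1)) / q := by
        rw [Nat.le_div_iff_mul_le hq, mul_comm]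
        exact h5
      have h7 : ((n - m % q) + (L - 1)) / q ≤ ((n - m % q) + q * (L - 1)) / q :=
        Nat.div_le_div_right (by nlinarith [Nat.le_mul_of_pos_left (L - 1) hq])
      rw [Nat.add_mul_div_left _ _ hq] at h7
      omega
    · show m % q + q * (m / q) ∈ A
      rw [h4]
      exact h3
  have h1 : (((Finset.Ico n (n + L)).filter (fun m => m ∈ A)).card : ℝ) ≤
      ∑ r ∈ Finset.range q, (((Finset.Ico ((n - r) / q) ((n - r) / q + L)).filter
        (fun t => t ∈ {t | r + q * t ∈ A})).card : ℝ) := by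
    have h2 := (Finset.card_le_card hsub).trans Finset.card_biUnion_le
    have h3 : ∑ r ∈ Finset.range q, (((Finset.Ico ((n - r) / q) ((n - r) / q + L)).filter
        (fun t => t ∈ {t | r + q * t ∈ A})).image fun t => r + q * t).card ≤
        ∑ r ∈ Finset.range q, ((Finset.Ico ((n - r) / q) ((n - r) / q + L)).filter
        (fun t => t ∈ {t | r + q * t ∈ A})).card :=
      Finset.sum_le_sum fun r _ => Finset.card_image_le
    exact_mod_cast h2.trans h3
  refine h1.trans ?_
  calc ∑ r ∈ Finset.range q, (((Finset.Ico ((n - r) / q) ((n - r) / q + L)).filter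
        (fun t => t ∈ {t | r + q * t ∈ A})).card : ℝ)
      ≤ ∑ r ∈ Finset.range q, ε / q * L := by
        refine Finset.sum_le_sum fun r hr => ?_
        have hr' := Finset.mem_range.1 hr
        refine hL0 r hr' L ?_ _
        have : L0 r ≤ ∑ r ∈ Finset.range q, L0 r :=
          Finset.single_le_sum (fun _ _ => Nat.zero_le _) hr
        omega
    _ = ε * L := by
        rw [Finset.sum_const, Finset.card_range, nsmul_eq_mul]
        field_simp

end Pool.Agent.J4H65.UP
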