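import Pool.Agent.J4H65.UP.Lim
import Pool.Agent.TH286.GT.CLD

/-!
# Nonpositive terms along a residue class
-/

set_option autoImplicit false

namespace Pool.Agent.J4H65.UP

open Polynomial Filter Topology Pool.Agent.H612.LR
open scoped Classical

/-- a set on which a nondegenerate exponential sum is small -/
theorem null_of_small {ι : Type} (A : Set ℕ) (I : Finset ι) (g x : ι → ℂ)
    (hx : ∀ i ∈ I, ‖x i‖ = 1) (hg : ∃ i ∈ I, g i ≠ 0)
    (hnd : ∀ i ∈ I, ∀ j ∈ I, i ≠ j → ∀ t : ℕ, 1 ≤ t → x i ^ t ≠ x j ^ t)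
    (hA : ∀ ε : ℝ, 0 < ε → ∃ N : ℕ, ∀ t ∈ A, N ≤ t → ‖∑ i ∈ I, g i * x i ^ t‖ ≤ ε) :
    BanachNull A := by
  intro δ hδ
  obtain ⟨ε, hε, L0, hL0⟩ := small_values I g x hx hg hnd (δ / 2) (by positivity)
  obtain ⟨N, hN⟩ := hA ε hε
  obtain ⟨L1, hL1⟩ := exists_nat_ge (2 * (N : ℝ) / δ)
  refine ⟨L0 + L1, fun L hL n => ?_⟩
  have hsub : (Finset.Ico n (n + L)).filter (fun t => t ∈ A) ⊆
      Finset.range N ∪ (Finset.Ico n (n + L)).filter (fun t => ‖∑ i ∈ I, g i * x i ^ t‖ ≤ ε) := by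
    intro t ht
    obtain ⟨ht1, ht2⟩ := Finset.mem_filter.1 ht
    rw [Finset.mem_union]
    by_cases htN : t < N
    · exact Or.inl (Finset.mem_range.2 htN)
    · exact Or.inr (Finset.mem_filter.2 ⟨ht1, hN t ht2 (not_lt.1 htN)⟩)
  have h1 := (Finset.card_le_card hsub).trans (Finset.card_union_le _ _)
  rw [Finset.card_range] at h1
  have h2 := hL0 L (by omega) n
  have h3 : (N : ℝ) ≤ δ / 2 * L := by
    rw [div_le_iff₀ hδ] at hL1
    have : (L1 : ℝ) ≤ L := by exact_mod_cast (by omega : L1 ≤ L)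
    nlinarith
  calc (((Finset.Ico n (n + L)).filter (fun t => t ∈ A)).card : ℝ)
      ≤ ((N + ((Finset.Ico n (n + L)).filter
        (fun t => ‖∑ i ∈ I, g i * x i ^ t‖ ≤ ε)).card : ℕ) : ℝ) := by exact_mod_cast h1
    _ ≤ δ / 2 * L + δ / 2 * L := by
        push_cast
        exact add_le_add h3 h2
    _ = δ * L := by ring

/-- The dominant part is nonnegative along the class: nonpositive terms are rare. -/
theorem null_of_cls (l : Rec) (d : CD) (hrep : Rep l d.lam d.c) (h : Cls l d)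
    (htor : ∀ i ∈ d.S l.length 1, ∀ i' ∈ d.S l.length 1, ∀ t : ℕ, 1 ≤ t →
      d.lam i ^ (d.q * t) = d.lam i' ^ (d.q * t) → d.lam i ^ d.q = d.lam i' ^ d.q)
    (hnn : ∀ t, 0 ≤ (dpart l.length d t).re) :
    BanachNull {t | seq l (d.m + d.q * t) ≤ 0} := by
  obtain ⟨I, g, x, hx, hg, hnd, hform, -⟩ := dpart_form l d h htor
  refine null_of_small _ I g x hx hg hnd fun ε hε => ?_
  have hc := close l d hrep h.lev h.jlt h.rpos
  rw [Metric.tendsto_atTop] at hc
  obtain ⟨N, hN⟩ := hc ε hε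
  refine ⟨N, fun t ht htN => ?_⟩
  rw [← hform t]
  have h1 := hN t htN
  rw [dist_zero_right] at h1
  have h2 := (Complex.abs_re_le_norm (((wn l d t : ℝ) : ℂ) - dpart l.length d t)).trans_lt h1
  rw [Complex.sub_re, Complex.ofReal_re] at h2
  have h3 : wn l d t ≤ 0 := by
    unfold wn
    refine div_nonpos_of_nonpos_of_nonneg ?_ ?_
    · have : seq l (d.m + d.q * t) ≤ 0 := ht
      exact_mod_cast this
    · have := h.rpos.le
      positivity
  have h4 := (abs_lt.1 h2).1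
  have h5 : dpart l.length d t = ((dpart l.length d t).re : ℂ) := by
    apply Complex.ext
    · simp
    · rw [dpart_im l d hrep h.lev h.jlt h.rpos t]
      simp
  rw [h5, Complex.norm_real, Real.norm_eq_abs, abs_of_nonneg (hnn t)]
  linarith

/-- The dominant part is bounded away from zero: all late terms are positive. -/
theorem pos_of_lower (l : Rec) (d : CD) (hrep : Rep l d.lam d.c) (h : Cls l d)
    (ε : ℝ) (hε : 0 < ε) (hlow : ∃ N, ∀ t, N ≤ t → ε ≤ (dpart l.length d t).re) :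
    ∃ N, ∀ t, N ≤ t → 0 < seq l (d.m + d.q * t) := by
  obtain ⟨N0, hN0⟩ := hlow
  have hc := close l d hrep h.lev h.jlt h.rpos
  rw [Metric.tendsto_atTop] at hc
  obtain ⟨N, hN⟩ := hc ε hε
  refine ⟨N0 + N, fun t ht => ?_⟩
  have h1 := hN t (by omega)
  have h0 := hN0 t (by omega)
  rw [dist_zero_right] at h1
  have h2 := (Complex.abs_re_le_norm (((wn l d t : ℝ) : ℂ) - dpart l.length d t)).trans_lt h1
  rw [Complex.sub_re, Complex.ofReal_re] at h2
  have h3 := (abs_lt.1 h2).1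
  have h4 : 0 < wn l d t := by linarith
  unfold wn at h4
  by_contra hcon
  rw [not_lt] at hcon
  have h5 : ((seq l (d.m + d.q * t) : ℚ) : ℝ) ≤ 0 := by exact_mod_cast hcon
  have h6 : ((seq l (d.m + d.q * t) : ℚ) : ℝ) /
      (d.ρ ^ (d.m + d.q * t) * ((d.m + d.q * t).choose d.J : ℝ)) ≤ 0 := by
    refine div_nonpos_of_nonpos_of_nonneg h5 ?_
    have := h.rpos.le
    positivity
  linarith

/-- The dominant roots are simple on the class: all late terms are positive. -/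
theorem pos_of_growth (hG : GrowthTheorem) (l : Rec) (d : CD) (hrep : Rep l d.lam d.c)
    (h : Cls l d) (hJ0 : d.J = 0)
    (halg : ∀ i < l.length, IsAlgebraic ℚ (d.c i 0))
    (hlalg : ∀ i ∈ d.S l.length 1, IsAlgebraic ℚ (d.lam i))
    (htor : ∀ i ∈ d.S l.length 1, ∀ i' ∈ d.S l.length 1, ∀ t : ℕ, 1 ≤ t →
      d.lam i ^ (d.q * t) = d.lam i' ^ (d.q * t) → d.lam i ^ d.q = d.lam i' ^ d.q)
    (hnn : ∀ t, 0 ≤ (dpart l.length d t).re) :
    ∃ N, ∀ t, N ≤ t → 0 < seq l (d.m + d.q * t) := by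
  obtain ⟨A1, A2, μ, hA1, hA2, hμ0, hμρ, hA10, hest⟩ := est l d hrep h.lev h.jlt h.rpos
  have hρ := h.rpos
  have hρc : (d.ρ : ℂ) ≠ 0 := by exact_mod_cast hρ.ne'
  have hq := h.lev.q1
  set S := d.S l.length 1 with hS
  have hSk : ∀ i ∈ S, i < l.length ∧ ‖d.lam i‖ = d.ρ := by
    intro i hi
    rw [hS] at hi
    unfold CD.S at hi
    rw [Finset.mem_filter, Finset.mem_range] at hi
    rcases h.lev.flag i hi.1 with h | ⟨-, h, -⟩ | ⟨h, -⟩
    · omega
    · exact ⟨hi.1, h⟩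
    · omega
  have hκ : ∀ i ∈ S, d.lam (d.κ i) ^ d.q = d.lam i ^ d.q := fun i hi =>
    (h.lev.cls i (hSk i hi).1).2.symm
  set G : ℕ → ℂ := fun s => ∑ i ∈ S.filter (fun i => d.κ i = s), d.c i 0 * d.lam i ^ d.m
    with hGdef
  set I : Finset ℕ := (S.image d.κ).filter (fun s => G s ≠ 0) with hI
  have hsum : ∀ t, (d.ρ : ℂ) ^ (d.m + d.q * t) * dpart l.length d t =
      ∑ s ∈ I, G s * (d.lam s ^ d.q) ^ t := by
    intro t
    unfold dpart
    rw [hJ0, Finset.mul_sum, hI, Finset.sum_filter,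
      ← Finset.sum_fiberwise_of_maps_to (fun i hi => Finset.mem_image_of_mem d.κ hi)]
    refine Finset.sum_congr rfl fun s _ => ?_
    have e1 : ∑ i ∈ S.filter (fun i => d.κ i = s), (d.ρ : ℂ) ^ (d.m + d.q * t) *
        (d.c i 0 * (d.lam i / (d.ρ : ℂ)) ^ (d.m + d.q * t)) = G s * (d.lam s ^ d.q) ^ t := by
      simp only [hGdef]
      rw [Finset.sum_mul]
      refine Finset.sum_congr rfl fun i hi => ?_
      obtain ⟨hi1, hi2⟩ := Finset.mem_filter.1 hi
      rw [← hi2, hκ i hi1, div_pow, pow_add (d.lam i), pow_mul]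
      field_simp
    rw [e1]
    split_ifs with hs
    · rfl
    · rw [not_not] at hs
      rw [hs, zero_mul]
  -- the growth theorem
  set R : ℝ := (μ ^ d.q + d.ρ ^ d.q) / 2 with hR
  have hμR : μ ^ d.q < d.ρ ^ d.q := pow_lt_pow_left₀ hμρ hμ0 (by omega)
  have hR1 : μ ^ d.q < R := by rw [hR]; linarith
  have hR2 : R < d.ρ ^ d.q := by rw [hR]; linarith
  have hR0 : 0 < R := lt_of_le_of_lt (by positivity) hR1
  have hGalg : ∀ s, IsAlgebraic ℚ (G s) := by
    intro s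
    have : ∀ A : Finset ℕ, (∀ i ∈ A, i ∈ S) →
        IsAlgebraic ℚ (∑ i ∈ A, d.c i 0 * d.lam i ^ d.m) := by
      intro A
      induction A using Finset.induction_on with
      | empty => intro _; simpa using (isAlgebraic_zero : IsAlgebraic ℚ (0 : ℂ))
      | insert a A ha ih =>
        intro hA
        rw [Finset.sum_insert ha]
        have haA := hA a (Finset.mem_insert_self a A)
        exact ((halg a (hSk a haA).1).mul ((hlalg a haA).pow d.m)).add
          (ih fun i hi => hA i (Finset.mem_insert_of_mem hi))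
    exact this _ fun i hi => (Finset.mem_filter.1 hi).1
  obtain ⟨s1, hs1⟩ := h.act
  rw [hJ0] at hs1
  have hs1I : s1 ∈ I := by
    rw [hI, Finset.mem_filter]
    refine ⟨?_, hs1⟩
    by_contra hcon
    apply hs1
    refine Finset.sum_eq_zero fun i hi => ?_
    obtain ⟨hi1, hi2⟩ := Finset.mem_filter.1 hi
    exact absurd (Finset.mem_image.2 ⟨i, hi1, hi2⟩) hcon
  have hrepI : ∀ s ∈ I, ∃ i ∈ S, d.κ i = s := by
    intro s hs
    exact Finset.mem_image.1 (Finset.mem_filter.1 hs).1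
  obtain ⟨N1, hN1⟩ := hG I (fun s => d.lam s ^ d.q) G (by
    intro s hs
    obtain ⟨i, hi, rfl⟩ := hrepI s hs
    refine ⟨?_, hGalg _, ?_, (Finset.mem_filter.1 hs).2⟩
    · show IsAlgebraic ℚ (d.lam (d.κ i) ^ d.q)
      rw [hκ i hi]
      exact (hlalg i hi).pow d.q
    · show d.lam (d.κ i) ^ d.q ≠ 0
      rw [hκ i hi]
      refine pow_ne_zero _ ?_
      intro h0
      have := (hSk i hi).2
      rw [h0, norm_zero] at this
      exact hρ.ne this) (by
    intro s hs s' hs' hne t ht heq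
    obtain ⟨i, hi, rfl⟩ := hrepI s hs
    obtain ⟨i', hi', rfl⟩ := hrepI s' hs'
    simp only [hκ i hi, hκ i' hi'] at heq
    rw [← pow_mul, ← pow_mul] at heq
    exact hne (h.sep i hi i' hi' (htor i hi i' hi' t ht heq))) R hR0.le ⟨s1, hs1I, by
      obtain ⟨i, hi, rfl⟩ := hrepI s1 hs1I
      simp only [hκ i hi]
      rw [norm_pow, (hSk i hi).2]
      exact hR2⟩
  obtain ⟨N2, hN2⟩ := Pool.Agent.TH286.GT.CLD.poly_exp l.length d.m d.q (A2 * μ ^ d.m)
    (μ ^ d.q) R (by positivity) hR1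
  refine ⟨N1 + N2 + l.length, fun t ht => ?_⟩
  have htq : t ≤ d.q * t := Nat.le_mul_of_pos_left _ hq
  have h1 := hest t (by omega)
  rw [hA10 hJ0, zero_mul, zero_add, hJ0, Nat.choose_zero_right, Nat.cast_one, one_mul,
    hsum t] at h1
  have h2 := hN1 t (by omega)
  have h3 := hN2 t (by omega)
  have h4 : A2 * ((((d.m + d.q * t : ℕ) : ℝ) + 1) ^ l.length * μ ^ (d.m + d.q * t)) < R ^ t := by
    refine lt_of_le_of_lt (le_of_eq ?_) h3
    rw [pow_add, pow_mul]
    push_cast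
    ring
  have h5 : ∑ s ∈ I, G s * (d.lam s ^ d.q) ^ t =
      ((d.ρ ^ (d.m + d.q * t) * (dpart l.length d t).re : ℝ) : ℂ) := by
    rw [← hsum t]
    push_cast
    congr 1
    apply Complex.ext
    · simp
    · rw [dpart_im l d hrep h.lev h.jlt h.rpos t]
      simp
  have h6 : 0 ≤ d.ρ ^ (d.m + d.q * t) * (dpart l.length d t).re := mul_nonneg (by positivity)
    (hnn t)
  rw [h5] at h1 h2
  rw [Complex.norm_real, Real.norm_eq_abs, abs_of_nonneg h6] at h2
  have h7 := (Complex.abs_re_le_norm _).trans h1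
  rw [Complex.sub_re, Complex.ofReal_re] at h7
  have h8 : ((seq l (d.m + d.q * t) : ℚ) : ℂ).re = ((seq l (d.m + d.q * t) : ℚ) : ℝ) := by
    rw [← Complex.ofReal_ratCast, Complex.ofReal_re]
  rw [h8] at h7
  have h9 := (abs_le.1 h7).1
  have : (0 : ℝ) < ((seq l (d.m + d.q * t) : ℚ) : ℝ) := by linarith
  exact_mod_cast this

end Pool.Agent.J4H65.UP
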