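import Pool.Agent.J4H65.UP.Asy

/-!
# Consequences of the asymptotics along a residue class
-/

set_option autoImplicit false

namespace Pool.Agent.J4H65.UP

open Polynomial Filter Topology Pool.Agent.H612.LR

/-- the terms of the class, normalised -/
noncomputable def wn (l : Rec) (d : CD) (t : ℕ) : ℝ :=
  ((seq l (d.m + d.q * t) : ℚ) : ℝ) /
    (d.ρ ^ (d.m + d.q * t) * ((d.m + d.q * t).choose d.J : ℝ))

theorem tendsto_index (m q : ℕ) (hq : 1 ≤ q) : Tendsto (fun t : ℕ => m + q * t) atTop atTop := by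
  refine tendsto_atTop_mono (fun t => ?_) tendsto_id
  have : t ≤ q * t := Nat.le_mul_of_pos_left _ hq
  simp only [id_eq]
  omega

theorem close (l : Rec) (d : CD) (hrep : Rep l d.lam d.c) (hlev : d.Lev l)
    (hJ : d.J < l.length) (hρ : 0 < d.ρ) :
    Tendsto (fun t : ℕ => ((wn l d t : ℝ) : ℂ) - dpart l.length d t) atTop (𝓝 0) := by
  classical
  have hseq : ∀ n, l.length ≤ n → ((seq l n : ℚ) : ℂ) = expo l.length d.lam d.c n :=
    fun n hn => (hrep (n + 1)).2.2 n hn (Nat.lt_succ_self n)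
  have hρc : (d.ρ : ℂ) ≠ 0 := by exact_mod_cast hρ.ne'
  have hS1 : ∀ i ∈ d.S l.length 1, ‖d.lam i / (d.ρ : ℂ)‖ = 1 := by
    intro i hi
    unfold CD.S at hi
    rw [Finset.mem_filter, Finset.mem_range] at hi
    rcases hlev.flag i hi.1 with h | ⟨-, h, -⟩ | ⟨h, -⟩
    · omega
    · rw [norm_div, h, Complex.norm_real, Real.norm_of_nonneg hρ.le, div_self hρ.ne']
    · omega
  have hS2 : ∀ i ∈ d.S l.length 2, ‖d.lam i / (d.ρ : ℂ)‖ < 1 := by
    intro i hi
    unfold CD.S at hi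
    rw [Finset.mem_filter, Finset.mem_range] at hi
    rcases hlev.flag i hi.1 with h | ⟨h, -⟩ | ⟨-, h⟩
    · omega
    · omega
    · rw [norm_div, Complex.norm_real, Real.norm_of_nonneg hρ.le, div_lt_one hρ]
      exact h
  set F : ℕ → ℂ := fun n =>
    ∑ i ∈ d.S l.length 1, ∑ j ∈ Finset.range d.J,
      d.c i j * (((n.choose j : ℝ) / (n.choose d.J : ℝ) : ℝ) : ℂ) * (d.lam i / (d.ρ : ℂ)) ^ n +
    ∑ i ∈ d.S l.length 2, ∑ j ∈ Finset.range l.length,
      d.c i j * (((n.choose j : ℝ) / (n.choose d.J : ℝ) : ℝ) : ℂ) * (d.lam i / (d.ρ : ℂ)) ^ n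
    with hF
  have hF0 : Tendsto F atTop (𝓝 0) := by
    have h1 : Tendsto (fun n : ℕ => ∑ i ∈ d.S l.length 1, ∑ j ∈ Finset.range d.J,
        d.c i j * (((n.choose j : ℝ) / (n.choose d.J : ℝ) : ℝ) : ℂ) *
          (d.lam i / (d.ρ : ℂ)) ^ n) atTop (𝓝 (∑ i ∈ d.S l.length 1,
            ∑ j ∈ Finset.range d.J, 0)) := by
      refine tendsto_finsetSum _ fun i hi => tendsto_finsetSum _ fun j hj => ?_
      exact ASY_D (Finset.mem_range.1 hj) _ _ (hS1 i hi)
    have h2 : Tendsto (fun n : ℕ => ∑ i ∈ d.S l.length 2, ∑ j ∈ Finset.range l.length,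
        d.c i j * (((n.choose j : ℝ) / (n.choose d.J : ℝ) : ℝ) : ℂ) *
          (d.lam i / (d.ρ : ℂ)) ^ n) atTop (𝓝 (∑ i ∈ d.S l.length 2,
            ∑ j ∈ Finset.range l.length, 0)) := by
      refine tendsto_finsetSum _ fun i hi => tendsto_finsetSum _ fun j hj => ?_
      exact ASY_W j d.J _ _ (hS2 i hi)
    have h3 := h1.add h2
    rw [Finset.sum_congr rfl fun _ _ => Finset.sum_const_zero, Finset.sum_const_zero,
      Finset.sum_congr rfl fun _ _ => Finset.sum_const_zero, Finset.sum_const_zero,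
      add_zero] at h3
    exact h3
  have hcomp := hF0.comp (tendsto_index d.m d.q hlev.q1)
  refine hcomp.congr' ?_
  filter_upwards [eventually_ge_atTop l.length] with t ht
  have htq : t ≤ d.q * t := Nat.le_mul_of_pos_left _ hlev.q1
  have hn : l.length ≤ d.m + d.q * t := by omega
  have hexp := hseq _ hn
  rw [snd_split t_VAN l d hlev hJ t] at hexp
  have hdp : dpart l.length d t =
      ∑ i ∈ d.S l.length 1, d.c i d.J * (d.lam i / (d.ρ : ℂ)) ^ (d.m + d.q * t) := rfl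
  rw [hdp]
  unfold wn
  simp only [Function.comp]
  generalize d.m + d.q * t = n at *
  have hc : (n.choose d.J : ℂ) ≠ 0 := by
    have : 0 < n.choose d.J := Nat.choose_pos (by omega)
    exact_mod_cast this.ne'
  have hρn : (d.ρ : ℂ) ^ n ≠ 0 := pow_ne_zero _ hρc
  have e0 : (((((seq l n : ℚ) : ℝ)) / (d.ρ ^ n * (n.choose d.J : ℝ)) : ℝ) : ℂ) =
      ((seq l n : ℚ) : ℂ) / ((d.ρ : ℂ) ^ n * (n.choose d.J : ℂ)) := by
    push_cast
    rfl
  rw [e0, hexp]
  simp only [hF]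
  have key : ∀ i j, d.c i j * (((n.choose j : ℝ) / (n.choose d.J : ℝ) : ℝ) : ℂ) *
      (d.lam i / (d.ρ : ℂ)) ^ n =
      (d.c i j * (n.choose j : ℂ) * d.lam i ^ n) / ((d.ρ : ℂ) ^ n * (n.choose d.J : ℂ)) := by
    intro i j
    rw [div_pow]
    push_cast
    field_simp
  have key2 : ∀ i, d.c i d.J * (d.lam i / (d.ρ : ℂ)) ^ n =
      (d.c i d.J * (n.choose d.J : ℂ) * d.lam i ^ n) / ((d.ρ : ℂ) ^ n * (n.choose d.J : ℂ)) := by
    intro i
    rw [div_pow]
    field_simp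
  simp only [key, key2]
  simp only [← Finset.sum_div]
  rw [← add_div, ← sub_div]
  congr 1
  have e2 : ∑ i ∈ d.S l.length 1, ∑ j ∈ Finset.range (d.J + 1),
      d.c i j * (n.choose j : ℂ) * d.lam i ^ n =
      ∑ i ∈ d.S l.length 1, ∑ j ∈ Finset.range d.J, d.c i j * (n.choose j : ℂ) * d.lam i ^ n +
      ∑ i ∈ d.S l.length 1, d.c i d.J * (n.choose d.J : ℂ) * d.lam i ^ n := by
    rw [← Finset.sum_add_distrib]
    refine Finset.sum_congr rfl fun i _ => ?_
    rw [Finset.sum_range_succ]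
  rw [e2]
  ring

/-- The almost periodic form of the dominant part. -/
theorem dpart_form (l : Rec) (d : CD) (h : Cls l d)
    (htor : ∀ i ∈ d.S l.length 1, ∀ i' ∈ d.S l.length 1, ∀ t : ℕ, 1 ≤ t →
      d.lam i ^ (d.q * t) = d.lam i' ^ (d.q * t) → d.lam i ^ d.q = d.lam i' ^ d.q) :
    ∃ (I : Finset ℕ) (g x : ℕ → ℂ), (∀ s ∈ I, ‖x s‖ = 1) ∧ (∃ s ∈ I, g s ≠ 0) ∧
      (∀ s ∈ I, ∀ s' ∈ I, s ≠ s' → ∀ t : ℕ, 1 ≤ t → x s ^ t ≠ x s' ^ t) ∧
      (∀ t, dpart l.length d t = ∑ s ∈ I, g s * x s ^ t) ∧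
      ∀ s ∈ I, g s ≠ 0 → ∃ i ∈ d.S l.length 1, d.c i d.J ≠ 0 ∧
        (d.lam i / (d.ρ : ℂ)) ^ d.q = x s := by
  classical
  obtain ⟨hlev, hJ, hρ, hsep, s1, hs1⟩ := h
  have hρc : (d.ρ : ℂ) ≠ 0 := by exact_mod_cast hρ.ne'
  set S := d.S l.length 1 with hS
  have hSk : ∀ i ∈ S, i < l.length ∧ ‖d.lam i‖ = d.ρ := by
    intro i hi
    rw [hS] at hi
    unfold CD.S at hi
    rw [Finset.mem_filter, Finset.mem_range] at hi
    rcases hlev.flag i hi.1 with h | ⟨-, h, -⟩ | ⟨h, -⟩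
    · omega
    · exact ⟨hi.1, h⟩
    · omega
  set x : ℕ → ℂ := fun s => (d.lam s / (d.ρ : ℂ)) ^ d.q with hx
  have hxi : ∀ i ∈ S, x (d.κ i) = x i := by
    intro i hi
    simp only [hx]
    rw [div_pow, div_pow, (hlev.cls i (hSk i hi).1).2]
  have hxn : ∀ i ∈ S, ‖x i‖ = 1 := by
    intro i hi
    simp only [hx]
    rw [norm_pow, norm_div, (hSk i hi).2, Complex.norm_real, Real.norm_of_nonneg hρ.le,
      div_self hρ.ne', one_pow]
  refine ⟨S.image d.κ, fun s => ∑ i ∈ S.filter (fun i => d.κ i = s),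
    d.c i d.J * (d.lam i / (d.ρ : ℂ)) ^ d.m, x, ?_, ?_, ?_, ?_, ?_⟩
  · intro s hs
    obtain ⟨i, hi, rfl⟩ := Finset.mem_image.1 hs
    rw [hxi i hi]
    exact hxn i hi
  · refine ⟨s1, ?_, ?_⟩
    · by_contra hcon
      apply hs1
      refine Finset.sum_eq_zero fun i hi => ?_
      obtain ⟨hi1, hi2⟩ := Finset.mem_filter.1 hi
      exact absurd (Finset.mem_image.2 ⟨i, hi1, hi2⟩) hcon
    · intro h0
      apply hs1
      have e : ∑ i ∈ S.filter (fun i => d.κ i = s1), d.c i d.J * d.lam i ^ d.m =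
          (∑ i ∈ S.filter (fun i => d.κ i = s1), d.c i d.J * (d.lam i / (d.ρ : ℂ)) ^ d.m) *
            (d.ρ : ℂ) ^ d.m := by
        rw [Finset.sum_mul]
        refine Finset.sum_congr rfl fun i _ => ?_
        rw [div_pow]
        field_simp
      rw [e]
      simp only at h0
      rw [h0, zero_mul]
  · intro s hs s' hs' hne t ht heq
    obtain ⟨i, hi, rfl⟩ := Finset.mem_image.1 hs
    obtain ⟨i', hi', rfl⟩ := Finset.mem_image.1 hs'
    rw [hxi i hi, hxi i' hi'] at heq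
    simp only [hx] at heq
    rw [← pow_mul, ← pow_mul, div_pow, div_pow,
      div_left_inj' (pow_ne_zero _ hρc)] at heq
    exact hne (hsep i hi i' hi' (htor i hi i' hi' t ht heq))
  · intro t
    unfold dpart
    rw [← Finset.sum_fiberwise_of_maps_to (fun i hi => Finset.mem_image_of_mem d.κ hi)]
    refine Finset.sum_congr rfl fun s _ => ?_
    rw [Finset.sum_mul]
    refine Finset.sum_congr rfl fun i hi => ?_
    obtain ⟨hi1, hi2⟩ := Finset.mem_filter.1 hi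
    rw [← hi2, hxi i hi1, pow_add, pow_mul]
    ring
  · intro s hs hgs
    obtain ⟨i, hi, hi0⟩ := Finset.exists_ne_zero_of_sum_ne_zero hgs
    obtain ⟨hi1, hi2⟩ := Finset.mem_filter.1 hi
    refine ⟨i, hi1, fun h0 => hi0 (by rw [h0, zero_mul]), ?_⟩
    rw [← hi2, hxi i hi1]

/-- The dominant part does not tend to zero. -/
theorem dpart_not_tendsto (l : Rec) (d : CD) (h : Cls l d) :
    ¬ Tendsto (dpart l.length d) atTop (𝓝 0) := by
  classical
  obtain ⟨hlev, hJ, hρ, hsep, s1, hs1⟩ := h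
  have hρc : (d.ρ : ℂ) ≠ 0 := by exact_mod_cast hρ.ne'
  set S := d.S l.length 1 with hS
  have hSk : ∀ i ∈ S, i < l.length ∧ ‖d.lam i‖ = d.ρ := by
    intro i hi
    rw [hS] at hi
    unfold CD.S at hi
    rw [Finset.mem_filter, Finset.mem_range] at hi
    rcases hlev.flag i hi.1 with h | ⟨-, h, -⟩ | ⟨h, -⟩
    · omega
    · exact ⟨hi.1, h⟩
    · omega
  set x : ℕ → ℂ := fun s => (d.lam s / (d.ρ : ℂ)) ^ d.q with hx
  have hxi : ∀ i ∈ S, x (d.κ i) = x i := by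
    intro i hi
    simp only [hx]
    rw [div_pow, div_pow, (hlev.cls i (hSk i hi).1).2]
  have hxn : ∀ i ∈ S, ‖x i‖ = 1 := by
    intro i hi
    simp only [hx]
    rw [norm_pow, norm_div, (hSk i hi).2, Complex.norm_real, Real.norm_of_nonneg hρ.le,
      div_self hρ.ne', one_pow]
  intro hlim
  have hform : ∀ t, dpart l.length d t = ∑ s ∈ S.image d.κ,
      (∑ i ∈ S.filter (fun i => d.κ i = s), d.c i d.J * (d.lam i / (d.ρ : ℂ)) ^ d.m) *
        x s ^ t := by
    intro t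
    unfold dpart
    rw [← Finset.sum_fiberwise_of_maps_to (fun i hi => Finset.mem_image_of_mem d.κ hi)]
    refine Finset.sum_congr rfl fun s _ => ?_
    rw [Finset.sum_mul]
    refine Finset.sum_congr rfl fun i hi => ?_
    obtain ⟨hi1, hi2⟩ := Finset.mem_filter.1 hi
    rw [← hi2, hxi i hi1, pow_add, pow_mul]
    ring
  have hz := t_MEAN (S.image d.κ) x (fun s => ∑ i ∈ S.filter (fun i => d.κ i = s),
    d.c i d.J * (d.lam i / (d.ρ : ℂ)) ^ d.m) (by
      intro s hs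
      obtain ⟨i, hi, rfl⟩ := Finset.mem_image.1 hs
      rw [hxi i hi]
      exact hxn i hi) (by
      intro s hs s' hs' heq
      obtain ⟨i, hi, rfl⟩ := Finset.mem_image.1 hs
      obtain ⟨i', hi', rfl⟩ := Finset.mem_image.1 hs'
      rw [hxi i hi, hxi i' hi'] at heq
      simp only [hx] at heq
      rw [div_pow, div_pow, div_left_inj' (pow_ne_zero _ hρc)] at heq
      exact hsep i hi i' hi' heq) (hlim.congr hform)
  apply hs1
  have hs1m : s1 ∈ S.image d.κ := by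
    by_contra hcon
    apply hs1
    refine Finset.sum_eq_zero fun i hi => ?_
    obtain ⟨hi1, hi2⟩ := Finset.mem_filter.1 hi
    exact absurd (Finset.mem_image.2 ⟨i, hi1, hi2⟩) hcon
  have h0 := hz s1 hs1m
  have e : ∑ i ∈ S.filter (fun i => d.κ i = s1), d.c i d.J * d.lam i ^ d.m =
      (∑ i ∈ S.filter (fun i => d.κ i = s1), d.c i d.J * (d.lam i / (d.ρ : ℂ)) ^ d.m) *
        (d.ρ : ℂ) ^ d.m := by
    rw [Finset.sum_mul]
    refine Finset.sum_congr rfl fun i _ => ?_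
    rw [div_pow]
    field_simp
  rw [e, h0, zero_mul]

/-- The dominant part returns. -/
theorem dpart_return (l : Rec) (d : CD) (hlev : d.Lev l) (hρ : 0 < d.ρ) (ε : ℝ) (hε : 0 < ε)
    (t0 : ℕ) : ∃ L : ℕ, ∀ n, ∃ t, n ≤ t ∧ t < n + L ∧
      ‖dpart l.length d t - dpart l.length d t0‖ < ε := by
  classical
  have hS1 : ∀ i ∈ d.S l.length 1, ‖d.lam i / (d.ρ : ℂ)‖ = 1 := by
    intro i hi
    unfold CD.S at hi
    rw [Finset.mem_filter, Finset.mem_range] at hi
    rcases hlev.flag i hi.1 with h | ⟨-, h, -⟩ | ⟨h, -⟩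
    · omega
    · rw [norm_div, h, Complex.norm_real, Real.norm_of_nonneg hρ.le, div_self hρ.ne']
    · omega
  set ε' := ε / (1 + ∑ i ∈ d.S l.length 1, ‖d.c i d.J‖) with hε'
  have hden : 0 < 1 + ∑ i ∈ d.S l.length 1, ‖d.c i d.J‖ := by
    have := Finset.sum_nonneg (s := d.S l.length 1) (f := fun i => ‖d.c i d.J‖)
      fun i _ => norm_nonneg _
    linarith
  have hε'0 : 0 < ε' := div_pos hε hden
  obtain ⟨L, hL⟩ := bohr (d.S l.length 1) (fun i => (d.lam i / (d.ρ : ℂ)) ^ d.q)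
    (fun i hi => by rw [norm_pow, hS1 i hi, one_pow]) ε' hε'0 t0
  refine ⟨L, fun n => ?_⟩
  obtain ⟨t, h1, h2, h3⟩ := hL n
  refine ⟨t, h1, h2, ?_⟩
  unfold dpart
  rw [← Finset.sum_sub_distrib]
  calc ‖∑ i ∈ d.S l.length 1, (d.c i d.J * (d.lam i / (d.ρ : ℂ)) ^ (d.m + d.q * t) -
        d.c i d.J * (d.lam i / (d.ρ : ℂ)) ^ (d.m + d.q * t0))‖
      ≤ ∑ i ∈ d.S l.length 1, ‖d.c i d.J * (d.lam i / (d.ρ : ℂ)) ^ (d.m + d.q * t) -
        d.c i d.J * (d.lam i / (d.ρ : ℂ)) ^ (d.m + d.q * t0)‖ := norm_sum_le _ _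
    _ ≤ ∑ i ∈ d.S l.length 1, ‖d.c i d.J‖ * ε' := by
        refine Finset.sum_le_sum fun i hi => ?_
        have e1 : d.c i d.J * (d.lam i / (d.ρ : ℂ)) ^ (d.m + d.q * t) -
            d.c i d.J * (d.lam i / (d.ρ : ℂ)) ^ (d.m + d.q * t0) =
            d.c i d.J * ((d.lam i / (d.ρ : ℂ)) ^ d.m * (((d.lam i / (d.ρ : ℂ)) ^ d.q) ^ t -
              ((d.lam i / (d.ρ : ℂ)) ^ d.q) ^ t0)) := by
          rw [pow_add, pow_mul, pow_add, pow_mul]
          ring
        rw [e1, norm_mul, norm_mul, norm_pow, hS1 i hi, one_pow, one_mul]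
        exact mul_le_mul_of_nonneg_left (h3 i hi).le (norm_nonneg _)
    _ = (∑ i ∈ d.S l.length 1, ‖d.c i d.J‖) * ε' := by rw [Finset.sum_mul]
    _ < (1 + ∑ i ∈ d.S l.length 1, ‖d.c i d.J‖) * ε' := by
        apply mul_lt_mul_of_pos_right _ hε'0
        linarith
    _ = ε := by
        rw [hε']
        field_simp

/-- The dominant part is real. -/
theorem dpart_im (l : Rec) (d : CD) (hrep : Rep l d.lam d.c) (hlev : d.Lev l)
    (hJ : d.J < l.length) (hρ : 0 < d.ρ) (t0 : ℕ) : (dpart l.length d t0).im = 0 := by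
  by_contra hne
  have hpos : 0 < |(dpart l.length d t0).im| := abs_pos.2 hne
  have hc := close l d hrep hlev hJ hρ
  rw [Metric.tendsto_atTop] at hc
  obtain ⟨N, hN⟩ := hc (|(dpart l.length d t0).im| / 2) (by positivity)
  obtain ⟨L, hL⟩ := dpart_return l d hlev hρ (|(dpart l.length d t0).im| / 2) (by positivity) t0
  obtain ⟨t, h1, -, h3⟩ := hL N
  have h4 := hN t h1
  rw [dist_zero_right] at h4
  have h5 := (Complex.abs_im_le_norm (((wn l d t : ℝ) : ℂ) - dpart l.length d t)).trans_lt h4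
  have h6 := (Complex.abs_im_le_norm (dpart l.length d t - dpart l.length d t0)).trans_lt h3
  rw [Complex.sub_im, Complex.ofReal_im, zero_sub, abs_neg] at h5
  rw [Complex.sub_im] at h6
  have h7 := abs_sub_abs_le_abs_sub (dpart l.length d t0).im (dpart l.length d t).im
  rw [abs_sub_comm] at h6
  linarith

end Pool.Agent.J4H65.UP
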