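import Pool.Agent.J4H65.UP.Roots
import Pool.Agent.TH286.GT.All

/-!
# Almost everywhere positivity in `∀ℝ`: assembly
-/

set_option autoImplicit false

namespace Pool.Agent.J4H65.UP

open Pool.Agent.NPC Pool.Agent.NPC.ER Pool.Agent.NPC.H612 Pool.Agent.H612.PG Pool.Agent.H612.LR
open Polynomial Filter Topology

theorem alg_root (l : Rec) (z : ℂ) (h1 : IsRoot l z) : IsAlgebraic ℚ z := by
  refine ⟨chi l, ?_, ?_⟩
  · have hm : (chi l).Monic := by
      unfold chi
      refine Polynomial.monic_X_pow_sub ?_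
      refine (Polynomial.degree_sum_le _ _).trans_lt ?_
      rw [Finset.sup_lt_iff (by exact_mod_cast WithBot.bot_lt_coe _)]
      intro j hj
      refine (Polynomial.degree_C_mul_X_pow_le _ _).trans_lt ?_
      have : l.length - 1 - j < l.length := by
        have := Finset.mem_range.1 hj
        omega
      exact_mod_cast this
    exact hm.ne_zero
  · unfold chi
    rw [map_sub, map_pow, aeval_X, map_sum]
    simp only [map_mul, map_pow, aeval_X, aeval_C]
    rw [sub_eq_zero]
    unfold Pool.Agent.H612.LR.IsRoot at h1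
    rw [h1]
    rfl

/-- The typed reduction. -/
theorem main_typed : ∃ g : Rec → Fm, Pool.Agent.NPC.Poly g ∧ ∀ l : Rec, l ≠ [] →
    (ETR (g l) → BoundedGaps (Npos l)) ∧
    (¬ ETR (g l) → BanachNull (Npos l) ∧ (¬ Critical l → UltPositive l)) := by
  classical
  obtain ⟨A0, hA0⟩ := gaps_of_cert
  obtain ⟨C, hC⟩ := t_TOR t_TORK
  obtain ⟨A1, hA1⟩ := t_CMP (t_DEC t_DIR) A0 C
  refine ⟨fun l => lrFm l (A1 * Pool.Agent.H612.LR.sz l ^ A1) (A0 * Pool.Agent.H612.LR.sz l ^ A0),
    t_PLY A0 A1, fun l hl => ?_⟩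
  have hk : 1 ≤ l.length := List.length_pos_iff.2 hl
  have hiff := etr_iff t_HLD t_SUR t_VC1 t_VC2 l (A1 * Pool.Agent.H612.LR.sz l ^ A1)
    (A0 * Pool.Agent.H612.LR.sz l ^ A0) hk
  refine ⟨fun h => hA0 l _ hk (hiff.1 h), fun hne => ?_⟩
  obtain ⟨lam, c, hrep, hmul, halg⟩ := t_RPE l hk
  obtain ⟨q0, hq1, hq2, hq3⟩ := hC l hk
  have hroot : ∀ i < l.length, (∃ j < l.length, c i j ≠ 0) → IsRoot l (lam i) := by
    rintro i hi ⟨j, hj, hne⟩
    rw [t_ROOT l _ hk]
    by_contra hcon
    exact hne (hmul i hi j hj (by rw [Multiset.count_eq_zero.2 hcon]; exact Nat.zero_le _))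
  have fin : ∀ d : CD, d.lam = lam → d.c = c → d.q = q0 → d.Pre l → False := by
    intro d e1 e2 e3 e4
    exact hne (hiff.2 (hA1 l d hk (by rw [e1, e2]; exact hrep) e4 (by rw [e3]; exact hq2)))
  -- every residue class
  have cls : ∀ r, BanachNull {t | r + q0 * t ∈ Npos l} ∧
      (¬ Critical l → ∃ N, ∀ t, N ≤ t → 0 < seq l (r + q0 * t)) := by
    intro r
    obtain ⟨d, hd1, hd2, hd3, hd4, hd⟩ := class_data l lam c q0 hk hrep hroot hq1 r
    have hrep' : Rep l d.lam d.c := by rw [hd1, hd2]; exact hrep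
    rcases hd with ⟨hρ0, hlev, hJ⟩ | h
    · exact (fin d hd1 hd2 hd3 ⟨hlev, hJ, Or.inl hρ0⟩).elim
    have hSr : ∀ i ∈ d.S l.length 1, IsRoot l (d.lam i) ∧ d.lam i ≠ 0 := by
      intro i hi
      unfold CD.S at hi
      rw [Finset.mem_filter, Finset.mem_range] at hi
      rcases h.lev.flag i hi.1 with h1 | ⟨-, -, h1⟩ | ⟨h1, -⟩
      · omega
      · exact ⟨h1, (hrep' 0).1 i hi.1⟩
      · omega
    have htor : ∀ i ∈ d.S l.length 1, ∀ i' ∈ d.S l.length 1, ∀ t : ℕ, 1 ≤ t →
        d.lam i ^ (d.q * t) = d.lam i' ^ (d.q * t) → d.lam i ^ d.q = d.lam i' ^ d.q := by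
      intro i hi i' hi' t ht heq
      rw [hd3] at heq ⊢
      exact hq3 _ _ (hSr i hi).1 (hSr i' hi').1 (hSr i hi).2 (hSr i' hi').2 (q0 * t)
        (Nat.mul_pos hq1 ht) heq
    have hnn : ∀ t, 0 ≤ (dpart l.length d t).re := by
      intro t
      by_contra hcon
      rw [not_le] at hcon
      refine fin { d with m := d.m + d.q * t } hd1 hd2 hd3 ⟨lev_shift h.lev t, h.jlt, Or.inr ?_⟩
      exact hcon
    have hnull := null_of_cls l d hrep' h htor hnn
    rw [hd4, hd3] at hnull
    refine ⟨hnull, fun hcr => ?_⟩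
    have hpos : ∃ N, ∀ t, N ≤ t → 0 < seq l (d.m + d.q * t) := by
      rcases Nat.eq_zero_or_pos d.J with hJ0 | hJ1
      · refine pos_of_growth Pool.Agent.TH286.GT.growth l d hrep' h hJ0 ?_ ?_ htor hnn
        · intro i hi
          rw [hd2]
          exact halg i hi 0 (by omega)
        · exact fun i hi => alg_root l _ (hSr i hi).1
      · by_cases hsm : ∀ ε : ℝ, 0 < ε → ∀ N : ℕ, ∃ t, N ≤ t ∧ (dpart l.length d t).re < ε
        · exact (hcr (critical_of_cls l d hrep' h hJ1 htor hnn hsm)).elim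
        · push Not at hsm
          obtain ⟨ε, hε, N, hN⟩ := hsm
          exact pos_of_lower l d hrep' h ε hε ⟨N, hN⟩
    rw [hd4, hd3] at hpos
    exact hpos
  refine ⟨BanachNull.of_classes q0 hq1 fun r _ => (cls r).1, fun hcr => ?_⟩
  choose B hB using fun r => (cls r).2 hcr
  refine ⟨q0 * ∑ r ∈ Finset.range q0, B r, fun n hn => ?_⟩
  have h1 : n % q0 < q0 := Nat.mod_lt _ hq1
  have h2 : ∑ r ∈ Finset.range q0, B r ≤ n / q0 := (Nat.le_div_iff_mul_le hq1).2 (by
    rw [mul_comm]; exact hn)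
  have h3 : B (n % q0) ≤ ∑ r ∈ Finset.range q0, B r :=
    Finset.single_le_sum (fun _ _ => Nat.zero_le _) (Finset.mem_range.2 h1)
  have h4 := hB (n % q0) (n / q0) (h3.trans h2)
  rwa [Nat.mod_add_div] at h4

/-- the recurrence of order zero -/
theorem seq_nil (n : ℕ) : seq ([] : Rec) n = 0 := by
  rw [Pool.Agent.H612.LR.seq]
  simp

/-- On strings, with all codes and also the strings which are no codes. -/
theorem main_str : ∃ f : List Bool → Fm, PolyTime (fun w => bits (f w)) ∧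
    (∀ w, (∀ l : Rec, bits l ≠ w) → ETR (f w)) ∧
    ∀ l : Rec, (ETR (f (bits l)) → BoundedGaps (Npos l)) ∧
      (¬ ETR (f (bits l)) → BanachNull (Npos l) ∧ (¬ Critical l → UltPositive l)) := by
  obtain ⟨g, hg, h⟩ := main_typed
  set tt : Fm := Fm.eq Tm.zero Tm.zero with htt
  have htrue : ETR tt := ⟨fun _ => 0, rfl⟩
  set g' : Rec → Fm := fun l => match l with | [] => tt | b :: t => g (b :: t) with hg'
  have hg'P : Pool.Agent.NPC.Poly g' := by
    refine (Pool.Agent.NPC.Poly.listCases (l := fun l : Rec => l) (g := fun _ => tt)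
      (h := fun l _ _ => g l) Pool.Agent.NPC.Poly.id (Pool.Agent.NPC.Poly.const _)
      (hg.comp (Pool.Agent.NPC.Poly.fst Pool.Agent.NPC.Poly.id))).congr fun l => ?_
    cases l <;> rfl
  refine ⟨fun w => match unbits Rec w with | none => tt | some a => g' a, ?_, ?_, fun l => ?_⟩
  · refine polyTime_bits (g := fun w => match unbits Rec w with | none => tt | some a => g' a) ?_
    refine (Pool.Agent.NPC.Poly.optCases (g := fun _ => tt) (h := fun _ a => g' a) poly_unbits
      (Pool.Agent.NPC.Poly.const _)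
      (hg'P.comp (Pool.Agent.NPC.Poly.snd Pool.Agent.NPC.Poly.id))).congr fun w => ?_
    cases unbits Rec w <;> rfl
  · intro w hw
    cases hu : unbits Rec w with
    | none => simpa only [hu] using htrue
    | some a => exact absurd (bits_of_unbits hu) (hw a)
  · simp only [unbits_bits]
    cases l with
    | nil =>
      refine ⟨fun _ => ⟨1, fun n => ⟨n, ?_, le_refl n, Nat.lt_succ_self n⟩⟩, fun hcon => ?_⟩
      · show seq ([] : Rec) n ≤ 0
        rw [seq_nil]
      · exact absurd htrue hcon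
    | cons b t => exact h (b :: t) (List.cons_ne_nil b t)

end Pool.Agent.J4H65.UP
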