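import Pool.Agent.J4H65.UP.Dens

/-!
# Small values of nondegenerate exponential sums are rare
-/

set_option autoImplicit false

namespace Pool.Agent.J4H65.UP

open Finset
open scoped Classical

/-- elements which are more than `H` apart -/
theorem card_separated (B : Finset ℕ) (n L H : ℕ) (hB : B ⊆ Finset.Ico n (n + L))
    (hsep : ∀ a ∈ B, ∀ b ∈ B, a < b → a + H < b) : B.card ≤ L / (H + 1) + 1 := by
  have h1 : B.card ≤ (Finset.range (L / (H + 1) + 1)).card := by
    refine Finset.card_le_card_of_injOn (fun a => (a - n) / (H + 1)) ?_ ?_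
    · intro a ha
      have h2 := Finset.mem_Ico.1 (hB ha)
      have h3 : (a - n) / (H + 1) ≤ L / (H + 1) := Nat.div_le_div_right (by omega)
      rw [Finset.mem_coe, Finset.mem_range]
      exact Nat.lt_succ_of_le h3
    · intro a ha b hb hab
      by_contra hne
      have ha2 := Finset.mem_Ico.1 (hB ha)
      have hb2 := Finset.mem_Ico.1 (hB hb)
      simp only at hab
      have e1 := Nat.div_add_mod (a - n) (H + 1)
      have e2 := Nat.div_add_mod (b - n) (H + 1)
      have e3 : (a - n) % (H + 1) < H + 1 := Nat.mod_lt (a - n) (Nat.succ_pos H)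
      have e4 : (b - n) % (H + 1) < H + 1 := Nat.mod_lt (b - n) (Nat.succ_pos H)
      rw [hab] at e1
      rcases lt_or_gt_of_ne hne with h | h
      · have := hsep a ha b hb h
        omega
      · have := hsep b hb a ha h
        omega
  rwa [Finset.card_range] at h1

/-- Small values are rare, for sums with nonzero coefficients. -/
theorem small_values_aux {ι : Type} (m : ℕ) : ∀ (I : Finset ι) (g x : ι → ℂ), I.card = m + 1 →
    (∀ i ∈ I, ‖x i‖ = 1) → (∀ i ∈ I, g i ≠ 0) →
    (∀ i ∈ I, ∀ j ∈ I, i ≠ j → ∀ t : ℕ, 1 ≤ t → x i ^ t ≠ x j ^ t) →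
    ∀ δ : ℝ, 0 < δ → ∃ ε : ℝ, 0 < ε ∧ ∃ L0 : ℕ, ∀ L : ℕ, L0 ≤ L → ∀ n : ℕ,
      (((Finset.Ico n (n + L)).filter (fun t => ‖∑ i ∈ I, g i * x i ^ t‖ ≤ ε)).card : ℝ) ≤
        δ * L := by
  induction m with
  | zero =>
    intro I g x hI hx hg _ δ hδ
    obtain ⟨i, rfl⟩ := Finset.card_eq_one.1 (by simpa using hI)
    have hgi : 0 < ‖g i‖ := norm_pos_iff.2 (hg i (Finset.mem_singleton_self i))
    refine ⟨‖g i‖ / 2, by positivity, 0, fun L _ n => ?_⟩
    have h1 : (Finset.Ico n (n + L)).filter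
        (fun t => ‖∑ i ∈ {i}, g i * x i ^ t‖ ≤ ‖g i‖ / 2) = ∅ := by
      rw [Finset.filter_eq_empty_iff]
      intro t _
      rw [Finset.sum_singleton, norm_mul, norm_pow, hx i (Finset.mem_singleton_self i), one_pow,
        mul_one]
      linarith
    rw [h1, Finset.card_empty, Nat.cast_zero]
    positivity
  | succ m ih =>
    intro I g x hI hx hg hnd δ hδ
    obtain ⟨i0, hi0⟩ : I.Nonempty := by
      rw [← Finset.card_pos]
      omega
    set I' := I.erase i0 with hI'
    have hI'c : I'.card = m + 1 := by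
      rw [hI', Finset.card_erase_of_mem hi0, hI]
      rfl
    have hI'I : ∀ i ∈ I', i ∈ I := fun i hi => Finset.mem_of_mem_erase hi
    have hx0 : ∀ i ∈ I, x i ≠ 0 := by
      intro i hi h
      have := hx i hi
      rw [h, norm_zero] at this
      exact zero_ne_one this
    -- the window
    obtain ⟨H, hH⟩ := exists_nat_ge (4 / δ)
    have hH1 : (0 : ℝ) < H + 1 := by positivity
    set δ' : ℝ := δ / (4 * (H + 1)) with hδ'
    have hδ'0 : 0 < δ' := by positivity
    have key : ∀ h : ℕ, 1 ≤ h → ∃ ε : ℝ, 0 < ε ∧ ∃ L0 : ℕ, ∀ L : ℕ, L0 ≤ L → ∀ n : ℕ,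
        (((Finset.Ico n (n + L)).filter (fun t => ‖∑ i ∈ I', (g i * (x i ^ h - x i0 ^ h)) *
          x i ^ t‖ ≤ ε)).card : ℝ) ≤ δ' * L := by
      intro h hh
      refine ih I' (fun i => g i * (x i ^ h - x i0 ^ h)) x hI'c (fun i hi => hx i (hI'I i hi)) ?_
        (fun i hi j hj => hnd i (hI'I i hi) j (hI'I j hj)) δ' hδ'0
      intro i hi
      refine mul_ne_zero (hg i (hI'I i hi)) (sub_ne_zero.2 ?_)
      exact hnd i (hI'I i hi) i0 hi0 (Finset.ne_of_mem_erase hi) h hh
    choose! ε hε L0 hL0 using key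
    set S : Finset ℕ := Finset.Icc 1 H with hS
    obtain ⟨ε0, hε0, hε0'⟩ : ∃ ε0 : ℝ, 0 < ε0 ∧ ∀ h ∈ S, 2 * ε0 ≤ ε h := by
      have : ∀ S : Finset ℕ, (∀ h ∈ S, 1 ≤ h) → ∃ ε0 : ℝ, 0 < ε0 ∧ ∀ h ∈ S, 2 * ε0 ≤ ε h := by
        intro S
        induction S using Finset.induction_on with
        | empty => intro _; exact ⟨1, one_pos, by simp⟩
        | insert a S ha ihS =>
          intro hS
          obtain ⟨e, he, he'⟩ := ihS fun h hh => hS h (Finset.mem_insert_of_mem hh)
          have ha1 := hε a (hS a (Finset.mem_insert_self a S))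
          refine ⟨min e (ε a / 2), lt_min he (by linarith), ?_⟩
          intro h hh
          rcases Finset.mem_insert.1 hh with rfl | hh
          · have := min_le_right e (ε h / 2)
            linarith
          · have := min_le_left e (ε a / 2)
            have := he' h hh
            linarith
      exact this S fun h hh => (Finset.mem_Icc.1 hh).1
    obtain ⟨Lδ, hLδ⟩ := exists_nat_ge (4 / δ)
    refine ⟨ε0, hε0, Lδ + ∑ h ∈ S, L0 h, fun L hL n => ?_⟩
    set D : ℕ → ℂ := fun t => ∑ i ∈ I, g i * x i ^ t with hD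
    have hdiff : ∀ h t : ℕ, ∑ i ∈ I', (g i * (x i ^ h - x i0 ^ h)) * x i ^ t =
        D (t + h) - x i0 ^ h * D t := by
      intro h t
      have e1 : D (t + h) - x i0 ^ h * D t =
          ∑ i ∈ I, (g i * (x i ^ h - x i0 ^ h)) * x i ^ t := by
        simp only [hD]
        rw [Finset.mul_sum, ← Finset.sum_sub_distrib]
        refine Finset.sum_congr rfl fun i _ => ?_
        rw [pow_add]
        ring
      rw [e1, hI', ← Finset.add_sum_erase I _ hi0]
      simp
    set A : Finset ℕ := (Finset.Ico n (n + L)).filter (fun t => ‖D t‖ ≤ ε0) with hA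
    set A1 : Finset ℕ := S.biUnion fun h => (Finset.Ico n (n + L)).filter
      (fun t => ‖∑ i ∈ I', (g i * (x i ^ h - x i0 ^ h)) * x i ^ t‖ ≤ ε h) with hA1
    set A2 : Finset ℕ := A \ A1 with hA2
    have hA1c : (A1.card : ℝ) ≤ δ / 4 * L := by
      have h1 : (A1.card : ℝ) ≤ ∑ h ∈ S, (((Finset.Ico n (n + L)).filter
          (fun t => ‖∑ i ∈ I', (g i * (x i ^ h - x i0 ^ h)) * x i ^ t‖ ≤ ε h)).card : ℝ) := by
        exact_mod_cast Finset.card_biUnion_le
      refine h1.trans ?_
      calc _ ≤ ∑ h ∈ S, δ' * L := by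
            refine Finset.sum_le_sum fun h hh => ?_
            have hh1 := (Finset.mem_Icc.1 hh).1
            refine hL0 h hh1 L ?_ n
            have : L0 h ≤ ∑ h ∈ S, L0 h := Finset.single_le_sum (fun _ _ => Nat.zero_le _) hh
            omega
        _ = H * (δ' * L) := by
            rw [Finset.sum_const, hS, Nat.card_Icc, nsmul_eq_mul]
            simp
        _ ≤ (H + 1) * (δ' * L) := by
            have : 0 ≤ δ' * L := by positivity
            nlinarith
        _ = δ / 4 * L := by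
            rw [hδ']
            field_simp
    have hA2c : (A2.card : ℝ) ≤ δ / 2 * L := by
      have h1 : A2.card ≤ L / (H + 1) + 1 := by
        refine card_separated A2 n L H ?_ ?_
        · exact Finset.sdiff_subset.trans (Finset.filter_subset _ _)
        · intro a ha b hb hab
          by_contra hcon
          rw [not_lt] at hcon
          rw [hA2, Finset.mem_sdiff] at ha hb
          apply ha.2
          have ha3 := Finset.mem_filter.1 ha.1
          have hb3 := Finset.mem_filter.1 hb.1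
          have hmem : b - a ∈ S := by
            rw [hS, Finset.mem_Icc]
            omega
          rw [hA1, Finset.mem_biUnion]
          refine ⟨b - a, hmem, ?_⟩
          rw [Finset.mem_filter]
          refine ⟨ha3.1, ?_⟩
          rw [hdiff]
          have e1 : a + (b - a) = b := by omega
          rw [e1]
          have e2 : ‖x i0 ^ (b - a) * D a‖ ≤ ε0 := by
            rw [norm_mul, norm_pow, hx i0 hi0, one_pow, one_mul]
            exact ha3.2
          have e3 := norm_sub_le (D b) (x i0 ^ (b - a) * D a)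
          have e4 := hε0' (b - a) hmem
          have e5 := hb3.2
          linarith
      have h2 : ((L / (H + 1) : ℕ) : ℝ) ≤ L / (H + 1) := by
        have := Nat.cast_div_le (α := ℝ) (m := L) (n := H + 1)
        push_cast at this
        exact this
      have h3 : (L : ℝ) / (H + 1) ≤ δ / 4 * L := by
        rw [div_le_iff₀ hH1]
        rw [div_le_iff₀ hδ] at hH
        have hL0' : (0 : ℝ) ≤ L := Nat.cast_nonneg L
        nlinarith
      have h4 : (1 : ℝ) ≤ δ / 4 * L := by
        have h5 : (Lδ : ℝ) ≤ L := by exact_mod_cast (by omega : Lδ ≤ L)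
        rw [div_le_iff₀ hδ] at hLδ
        nlinarith
      calc (A2.card : ℝ) ≤ ((L / (H + 1) + 1 : ℕ) : ℝ) := by exact_mod_cast h1
        _ = ((L / (H + 1) : ℕ) : ℝ) + 1 := by push_cast; ring
        _ ≤ _ := by linarith
    have hA12 : A.card ≤ A1.card + A2.card := by
      have h1 : A ⊆ A1 ∪ A2 := by
        intro a ha
        rw [Finset.mem_union]
        by_cases h : a ∈ A1
        · exact Or.inl h
        · exact Or.inr (Finset.mem_sdiff.2 ⟨ha, h⟩)
      exact (Finset.card_le_card h1).trans (Finset.card_union_le _ _)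
    have h1 : (A.card : ℝ) ≤ A1.card + A2.card := by exact_mod_cast hA12
    have h2 : 0 ≤ δ * (L : ℝ) := by positivity
    linarith

/-- **Small values are rare.** For a nonzero exponential sum with unimodular bases, no two of which
have equal powers, and `δ > 0` there is `ε > 0` such that every long interval contains at most the
proportion `δ` of indices at which the absolute value of the sum is at most `ε`. -/
theorem small_values {ι : Type} (I : Finset ι) (g x : ι → ℂ)
    (hx : ∀ i ∈ I, ‖x i‖ = 1) (hg : ∃ i ∈ I, g i ≠ 0)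
    (hnd : ∀ i ∈ I, ∀ j ∈ I, i ≠ j → ∀ t : ℕ, 1 ≤ t → x i ^ t ≠ x j ^ t)
    (δ : ℝ) (hδ : 0 < δ) : ∃ ε : ℝ, 0 < ε ∧ ∃ L0 : ℕ, ∀ L : ℕ, L0 ≤ L → ∀ n : ℕ,
      (((Finset.Ico n (n + L)).filter (fun t => ‖∑ i ∈ I, g i * x i ^ t‖ ≤ ε)).card : ℝ) ≤
        δ * L := by
  set I' := I.filter (fun i => g i ≠ 0) with hI'
  obtain ⟨i1, hi1, hi1'⟩ := hg
  have hne : i1 ∈ I' := Finset.mem_filter.2 ⟨hi1, hi1'⟩
  have hpos : 0 < I'.card := Finset.card_pos.2 ⟨i1, hne⟩
  obtain ⟨ε, hε, L0, hL0⟩ := small_values_aux (I'.card - 1) I' g x (by omega)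
    (fun i hi => hx i (Finset.mem_filter.1 hi).1) (fun i hi => (Finset.mem_filter.1 hi).2)
    (fun i hi j hj => hnd i (Finset.mem_filter.1 hi).1 j (Finset.mem_filter.1 hj).1) δ hδ
  refine ⟨ε, hε, L0, fun L hL n => ?_⟩
  have e : ∀ t : ℕ, ∑ i ∈ I, g i * x i ^ t = ∑ i ∈ I', g i * x i ^ t := by
    intro t
    rw [hI', Finset.sum_filter]
    refine Finset.sum_congr rfl fun i _ => ?_
    split_ifs with h
    · rfl
    · rw [not_not] at h
      rw [h, zero_mul]
  simp only [e]
  exact hL0 L hL n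

/-- Powers of finitely many numbers of absolute value one: approximate returns have bounded gaps. -/
theorem bohr (D : Finset ℕ) (g : ℕ → ℂ) (hg : ∀ i ∈ D, ‖g i‖ = 1) (ε : ℝ) (hε : 0 < ε) (t0 : ℕ) :
    ∃ L : ℕ, ∀ n : ℕ, ∃ t, n ≤ t ∧ t < n + L ∧ ∀ i ∈ D, ‖g i ^ t - g i ^ t0‖ < ε := by
  -- a finite net of the orbit
  set F : ℕ → (D → ℂ) := fun n i => g i ^ n with hF
  have hbdd : Bornology.IsBounded (Set.range F) := by
    rw [isBounded_iff_forall_norm_le]
    refine ⟨1, ?_⟩
    rintro _ ⟨n, rfl⟩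
    rw [pi_norm_le_iff_of_nonneg zero_le_one]
    intro i
    simp only [hF]
    rw [norm_pow, hg i i.2, one_pow]
  have htb : TotallyBounded (Set.range F) := by
    have := (Metric.isCompact_of_isClosed_isBounded isClosed_closure hbdd.closure).totallyBounded
    exact this.subset subset_closure
  obtain ⟨s, hs1, hs2, hs3⟩ := totallyBounded_iff_subset.1 htb _ (Metric.dist_mem_uniformity hε)
  -- choose preimages
  have hs1' : ∀ y ∈ s, ∃ n, F n = y := fun y hy => hs1 hy
  choose! p hp using hs1'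
  obtain ⟨M, hM⟩ : ∃ M : ℕ, ∀ y ∈ s, p y ≤ M := by
    refine ⟨hs2.toFinset.sup p, fun y hy => ?_⟩
    exact Finset.le_sup (f := p) (hs2.mem_toFinset.2 hy)
  refine ⟨M + t0 + 1, fun n => ?_⟩
  have h1 : F (n + M) ∈ Set.range F := ⟨_, rfl⟩
  obtain ⟨y, hy, h2⟩ := Set.mem_iUnion₂.1 (hs3 h1)
  have h3 := hM y hy
  refine ⟨n + M - p y + t0, by omega, by omega, fun i hi => ?_⟩
  have h4 : dist (F (n + M)) y < ε := h2
  rw [← hp y hy] at h4
  have h5 : dist (F (n + M) ⟨i, hi⟩) (F (p y) ⟨i, hi⟩) < ε :=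
    lt_of_le_of_lt (dist_le_pi_dist _ _ _) h4
  rw [dist_eq_norm] at h5
  simp only [hF] at h5
  have e1 : g i ^ (n + M) = g i ^ (p y) * g i ^ (n + M - p y) := by
    rw [← pow_add]
    congr 1
    omega
  rw [e1] at h5
  have e2 : g i ^ (p y) * g i ^ (n + M - p y) - g i ^ (p y) =
      g i ^ (p y) * (g i ^ (n + M - p y) - 1) := by ring
  rw [e2, norm_mul, norm_pow, hg i hi, one_pow, one_mul] at h5
  have e3 : g i ^ (n + M - p y + t0) - g i ^ t0 = g i ^ t0 * (g i ^ (n + M - p y) - 1) := by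
    rw [pow_add]
    ring
  rw [e3, norm_mul, norm_pow, hg i hi, one_pow, one_mul]
  exact h5

end Pool.Agent.J4H65.UP
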