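import Pool.Agent.J4H65.UP.Small
import Pool.Agent.H612.LR.Main

/-!
# Certificates force bounded gaps between the indices of the nonpositive terms
-/

set_option autoImplicit false

namespace Pool.Agent.J4H65.UP

open Polynomial Filter Topology Pool.Agent.H612.LR

/-- the set of the indices of the nonpositive terms -/
def Npos (l : Rec) : Set ℕ := {n | seq l n ≤ 0}

theorem gaps_of_neg (l : Rec) (d : CD) (hrep : Rep l d.lam d.c)
    (hlev : d.Lev l) (hJ : d.J < l.length) (hρ : 0 < d.ρ) (t0 : ℕ)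
    (hneg : (∑ i ∈ d.S l.length 1, d.c i d.J *
      (d.lam i / (d.ρ : ℂ)) ^ (d.m + d.q * t0)).re < 0) : BoundedGaps (Npos l) := by
  have hseq : ∀ n, l.length ≤ n → ((seq l n : ℚ) : ℂ) = expo l.length d.lam d.c n :=
    fun n hn => (hrep (n + 1)).2.2 n hn (Nat.lt_succ_self n)
  have hq1 := hlev.q1
  have hkey : ∀ t, l.length ≤ t → ((seq l (d.m + d.q * t) : ℚ) : ℂ) =
      expo l.length d.lam d.c (d.m + d.q * t) := fun t ht => by
    have : t ≤ d.q * t := Nat.le_mul_of_pos_left _ hq1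
    exact hseq _ (by omega)
  have hS1 : ∀ i ∈ d.S l.length 1, i < l.length ∧ ‖d.lam i‖ = d.ρ ∧ IsRoot l (d.lam i) := by
    intro i hi
    unfold CD.S at hi
    rw [Finset.mem_filter, Finset.mem_range] at hi
    rcases hlev.flag i hi.1 with h | ⟨-, h⟩ | ⟨h, -⟩
    · omega
    · exact ⟨hi.1, h⟩
    · omega
  have hS2 : ∀ i ∈ d.S l.length 2, ‖d.lam i‖ < d.ρ := by
    intro i hi
    unfold CD.S at hi
    rw [Finset.mem_filter, Finset.mem_range] at hi
    rcases hlev.flag i hi.1 with h | ⟨h, -⟩ | ⟨-, h⟩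
    · omega
    · omega
    · exact h
  set D := d.S l.length 1 with hD
  set g : ℕ → ℂ := fun i => d.lam i / (d.ρ : ℂ) with hg
  have hgn : ∀ i ∈ D, ‖g i‖ = 1 := by
    intro i hi
    simp only [hg]
    rw [norm_div, (hS1 i hi).2.1, Complex.norm_real, Real.norm_of_nonneg hρ.le,
      div_self hρ.ne']
  set R := (∑ i ∈ D, d.c i d.J * g i ^ (d.m + d.q * t0)).re with hR
  have hR0 : R < 0 := hneg
  set δ := -R / 2 with hδ
  have hδ0 : 0 < δ := by rw [hδ]; linarith
  obtain ⟨T', hT'⟩ := t_ASY l.length D (d.S l.length 2) d.lam d.c d.ρ δ d.J hρ hδ0 hJ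
    (fun i hi => (hS1 i hi).2.1) hS2
  set ε := δ / (1 + ∑ i ∈ D, ‖d.c i d.J‖) with hε
  have hden : 0 < 1 + ∑ i ∈ D, ‖d.c i d.J‖ := by
    have := Finset.sum_nonneg (s := D) (f := fun i => ‖d.c i d.J‖) fun i _ => norm_nonneg _
    linarith
  have hε0 : 0 < ε := div_pos hδ0 hden
  obtain ⟨L, hL⟩ := bohr D (fun i => g i ^ d.q)
    (fun i hi => by rw [norm_pow, hgn i hi, one_pow]) ε hε0 t0
  refine ⟨d.m + d.q * (T' + l.length + L + 1) + 1, fun n => ?_⟩
  have hn1 : n < d.q * (n / d.q) + d.q := Nat.lt_mul_div_succ _ hq1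
  have hn2 : d.q * (n / d.q) ≤ n := Nat.mul_div_le n d.q
  obtain ⟨w, hw⟩ : ∃ w : ℕ, w = n / d.q := ⟨_, rfl⟩
  rw [← hw] at hn1 hn2
  obtain ⟨t, ht1, ht2, hclose⟩ := hL (w + T' + l.length)
  have htq : t ≤ d.q * t := Nat.le_mul_of_pos_left _ hq1
  have hre : (∑ i ∈ D, d.c i d.J * (d.lam i / (d.ρ : ℂ)) ^ (d.m + d.q * t)).re ≤ -δ := by
    have hdiff : ‖∑ i ∈ D, d.c i d.J * (d.lam i / (d.ρ : ℂ)) ^ (d.m + d.q * t) -
        ∑ i ∈ D, d.c i d.J * g i ^ (d.m + d.q * t0)‖ ≤ δ := by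
      rw [← Finset.sum_sub_distrib]
      calc ‖∑ i ∈ D, (d.c i d.J * (d.lam i / (d.ρ : ℂ)) ^ (d.m + d.q * t) -
            d.c i d.J * g i ^ (d.m + d.q * t0))‖
          ≤ ∑ i ∈ D, ‖d.c i d.J * (d.lam i / (d.ρ : ℂ)) ^ (d.m + d.q * t) -
            d.c i d.J * g i ^ (d.m + d.q * t0)‖ := norm_sum_le _ _
        _ ≤ ∑ i ∈ D, ‖d.c i d.J‖ * ε := by
            refine Finset.sum_le_sum fun i hi => ?_
            have e1 : d.c i d.J * (d.lam i / (d.ρ : ℂ)) ^ (d.m + d.q * t) -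
                d.c i d.J * g i ^ (d.m + d.q * t0) =
                d.c i d.J * (g i ^ d.m * ((g i ^ d.q) ^ t - (g i ^ d.q) ^ t0)) := by
              simp only [hg]
              rw [pow_add, pow_mul, pow_add, pow_mul]
              ring
            rw [e1, norm_mul, norm_mul, norm_pow, hgn i hi, one_pow, one_mul]
            exact mul_le_mul_of_nonneg_left (hclose i hi).le (norm_nonneg _)
        _ = (∑ i ∈ D, ‖d.c i d.J‖) * ε := by rw [Finset.sum_mul]
        _ ≤ (1 + ∑ i ∈ D, ‖d.c i d.J‖) * ε := by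
            apply mul_le_mul_of_nonneg_right _ hε0.le
            linarith
        _ = δ := by
            rw [hε]
            field_simp
    have h := (Complex.abs_re_le_norm _).trans hdiff
    rw [Complex.sub_re, abs_le] at h
    have h2 := h.2
    have : R = -2 * δ := by rw [hδ]; ring
    rw [← hR] at h2
    linarith
  have hfin := hT' (d.m + d.q * t) (by omega) hre
  rw [← snd_split t_VAN l d hlev hJ t, ← hkey t (by omega)] at hfin
  have hre' : (((seq l (d.m + d.q * t) : ℚ) : ℂ)).re = ((seq l (d.m + d.q * t) : ℚ) : ℝ) := by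
    rw [← Complex.ofReal_ratCast, Complex.ofReal_re]
  rw [hre'] at hfin
  have hneg' : seq l (d.m + d.q * t) < 0 := by exact_mod_cast hfin
  refine ⟨d.m + d.q * t, hneg'.le, ?_, ?_⟩
  · have h2 : d.q * (w + 1) ≤ d.q * t := Nat.mul_le_mul_left _ (by omega)
    rw [Nat.mul_add, Nat.mul_one] at h2
    omega
  · have h2 : d.q * t ≤ d.q * (w + (T' + l.length + L + 1)) :=
      Nat.mul_le_mul_left _ (by omega)
    rw [Nat.mul_add] at h2
    omega

/-- a residue class on which all terms vanish -/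
theorem gaps_of_zero (l : Rec) (d : CD) (hrep : Rep l d.lam d.c)
    (hlev : d.Lev l) (hJ : d.J < l.length) (hρ : d.ρ = 0) : BoundedGaps (Npos l) := by
  obtain ⟨hl0, -, -⟩ := hrep 0
  have hseq : ∀ n, l.length ≤ n → ((seq l n : ℚ) : ℂ) = expo l.length d.lam d.c n :=
    fun n hn => (hrep (n + 1)).2.2 n hn (Nat.lt_succ_self n)
  have hq1 := hlev.q1
  have e1 : d.S l.length 1 = ∅ := by
    rw [Finset.eq_empty_iff_forall_notMem]
    intro i hi
    unfold CD.S at hi
    rw [Finset.mem_filter, Finset.mem_range] at hi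
    rcases hlev.flag i hi.1 with h | ⟨-, h, -⟩ | ⟨h, -⟩
    · omega
    · rw [hρ, norm_eq_zero] at h
      exact hl0 i hi.1 h
    · omega
  have e2 : d.S l.length 2 = ∅ := by
    rw [Finset.eq_empty_iff_forall_notMem]
    intro i hi
    unfold CD.S at hi
    rw [Finset.mem_filter, Finset.mem_range] at hi
    rcases hlev.flag i hi.1 with h | ⟨h, -⟩ | ⟨-, h⟩
    · omega
    · omega
    · rw [hρ] at h
      exact absurd h (not_lt.mpr (norm_nonneg _))
  have hz : ∀ t, l.length ≤ t → seq l (d.m + d.q * t) = 0 := by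
    intro t ht
    have : t ≤ d.q * t := Nat.le_mul_of_pos_left _ hq1
    have h := hseq (d.m + d.q * t) (by omega)
    rw [snd_split t_VAN l d hlev hJ, e1, e2, Finset.sum_empty, Finset.sum_empty, add_zero] at h
    exact_mod_cast h
  refine ⟨d.m + d.q * (l.length + 1) + 1, fun n => ?_⟩
  have hn1 : n < d.q * (n / d.q) + d.q := Nat.lt_mul_div_succ _ hq1
  have hn2 : d.q * (n / d.q) ≤ n := Nat.mul_div_le n d.q
  obtain ⟨w, hw⟩ : ∃ w : ℕ, w = n / d.q := ⟨_, rfl⟩
  rw [← hw] at hn1 hn2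
  refine ⟨d.m + d.q * (w + l.length + 1), (hz _ (by omega)).le, ?_, ?_⟩
  · have h2 : d.q * (w + 1) ≤ d.q * (w + l.length + 1) :=
      Nat.mul_le_mul_left _ (by omega)
    rw [Nat.mul_add, Nat.mul_one] at h2
    omega
  · have h2 : d.q * (w + l.length + 1) = d.q * w + d.q * (l.length + 1) := by ring
    omega

/-- level data with a negative value force bounded gaps -/
theorem gaps_of_pre (l : Rec) (d : CD) (hrep : Rep l d.lam d.c) (h : d.Pre l) :
    BoundedGaps (Npos l) := by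
  obtain ⟨hlev, hJ, h⟩ := h
  rcases eq_or_lt_of_le hlev.rho with h0 | h0
  · exact gaps_of_zero l d hrep hlev hJ h0.symm
  · rcases h with h | h
    · exact absurd h h0.ne'
    · refine gaps_of_neg l d hrep hlev hJ h0 0 ?_
      simpa using h

/-- certificates force bounded gaps -/
theorem gaps_of_cert : ∃ A0 : ℕ, ∀ (l : Rec) (Nb : ℕ), 1 ≤ l.length →
    Cert l Nb (A0 * sz l ^ A0) → BoundedGaps (Npos l) := by
  obtain ⟨A0, hA0⟩ := dens
  refine ⟨A0, ?_⟩
  rintro l Nb hl ⟨d, hd⟩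
  have hrep := t_RPU l d.lam d.c hl hd.rep
  have hlev := hd.lev
  rcases eq_or_lt_of_le hlev.rho with h0 | h0
  · exact gaps_of_zero l d hrep hlev hd.jlt h0.symm
  obtain ⟨hch, hx, hneg⟩ := hd.neg.resolve_left h0.ne'
  have hS1 : ∀ i ∈ d.S l.length 1, IsRoot l (d.lam i) ∧ ‖d.lam i‖ = d.ρ := by
    intro i hi
    unfold CD.S at hi
    rw [Finset.mem_filter, Finset.mem_range] at hi
    rcases hlev.flag i hi.1 with h | ⟨-, h1, h2⟩ | ⟨h, -⟩
    · omega
    · exact ⟨h2, h1⟩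
    · omega
  set D := d.S l.length 1 with hD
  set R := (∑ i ∈ D, d.c i d.J * d.z l.length i).re with hR
  set ε := (-R / 2) / (1 + ∑ i ∈ D, ‖d.c i d.J‖) with hε
  have hden : 0 < 1 + ∑ i ∈ D, ‖d.c i d.J‖ := by
    have := Finset.sum_nonneg (s := D) (f := fun i => ‖d.c i d.J‖) fun i _ => norm_nonneg _
    linarith
  have hR2 : 0 < -R / 2 := by linarith
  have hε0 : 0 < ε := div_pos hR2 hden
  obtain ⟨t, -, hclose⟩ := hA0 l d hl h0 hlev.q1 hS1 hch hx ε hε0 0
  refine gaps_of_neg l d hrep hlev hd.jlt h0 t ?_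
  have hdiff : ‖∑ i ∈ D, d.c i d.J * (d.lam i / (d.ρ : ℂ)) ^ (d.m + d.q * t) -
      ∑ i ∈ D, d.c i d.J * d.z l.length i‖ ≤ -R / 2 := by
    rw [← Finset.sum_sub_distrib]
    calc ‖∑ i ∈ D, (d.c i d.J * (d.lam i / (d.ρ : ℂ)) ^ (d.m + d.q * t) -
          d.c i d.J * d.z l.length i)‖
        ≤ ∑ i ∈ D, ‖d.c i d.J * (d.lam i / (d.ρ : ℂ)) ^ (d.m + d.q * t) -
          d.c i d.J * d.z l.length i‖ := norm_sum_le _ _
      _ ≤ ∑ i ∈ D, ‖d.c i d.J‖ * ε := by
          refine Finset.sum_le_sum fun i hi => ?_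
          rw [← mul_sub, norm_mul]
          exact mul_le_mul_of_nonneg_left (hclose i hi).le (norm_nonneg _)
      _ = (∑ i ∈ D, ‖d.c i d.J‖) * ε := by rw [Finset.sum_mul]
      _ ≤ (1 + ∑ i ∈ D, ‖d.c i d.J‖) * ε := by
          apply mul_le_mul_of_nonneg_right _ hε0.le
          linarith
      _ = -R / 2 := by
          rw [hε]
          field_simp
  have h := (Complex.abs_re_le_norm _).trans hdiff
  rw [Complex.sub_re, abs_le] at h
  have h2 := h.2
  rw [← hR] at h2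
  linarith

end Pool.Agent.J4H65.UP
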